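import Pool.Agent.Work.MP_3a76b1_co.IndepPoly

/-!
Sample points detecting linear independence.
-/

namespace Pool.Agent.Work.MP_3a76b1_co

open Finset Polynomial

lemma exists_sample {ι : Type*} [Fintype ι] [DecidableEq ι] (g : ι → ℝ[X])
    (hg : LinearIndependent ℝ g) :
    ∃ τ : ι → ℝ, (Matrix.of fun i' i => (g i).eval (τ i')).det ≠ 0 := by
  classical
  let ev : ℝ → (ι → ℝ) := fun t i => (g i).eval t
  have hspan : Submodule.span ℝ (Set.range ev) = ⊤ := by
    by_contra hne
    obtain ⟨f, hf0, hf⟩ := Submodule.exists_le_ker_of_lt_top _ (lt_top_iff_ne_top.2 hne)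
    apply hf0
    have h1 : ∀ t, f (ev t) = 0 := by
      intro t
      have : ev t ∈ LinearMap.ker f := hf (Submodule.subset_span ⟨t, rfl⟩)
      exact LinearMap.mem_ker.1 this
    have h2 : ∀ z : ι → ℝ, f z = ∑ i, z i * f (Pi.single i 1) := by
      intro z
      have hz : z = ∑ i, z i • (Pi.single i (1:ℝ) : ι → ℝ) := by
        ext j
        simp [Finset.sum_apply, Pi.single_apply]
      conv_lhs => rw [hz]
      rw [map_sum]
      refine Finset.sum_congr rfl (fun i _ => ?_)
      rw [map_smul, smul_eq_mul]
    have h3 : ∑ i, f (Pi.single i 1) • g i = 0 := by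
      apply Polynomial.funext
      intro t
      rw [eval_finsetSum, eval_zero]
      have := h1 t
      rw [h2] at this
      rw [← this]
      refine Finset.sum_congr rfl (fun i _ => ?_)
      rw [eval_smul, smul_eq_mul, mul_comm]
    have h4 := Fintype.linearIndependent_iff.1 hg _ h3
    apply LinearMap.ext
    intro z
    rw [h2 z, LinearMap.zero_apply]
    exact Finset.sum_eq_zero (fun i _ => by rw [h4 i, mul_zero])
  obtain ⟨b, hbs, hbspan, hbind⟩ := exists_linearIndependent ℝ (Set.range ev)
  rw [hspan] at hbspan
  have hbfin : Finite b := hbind.finite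
  have : Fintype b := Fintype.ofFinite b
  have hcard : Fintype.card b = Fintype.card ι := by
    have h1 : Module.finrank ℝ (Submodule.span ℝ b) = Fintype.card b := by
      have := finrank_span_eq_card hbind
      rw [Subtype.range_coe] at this
      exact this
    rw [hbspan, finrank_top, Module.finrank_pi] at h1
    exact h1.symm
  let e : ι ≃ b := (Fintype.equivOfCardEq hcard).symm
  have hex : ∀ i : ι, ∃ t, ev t = (e i : ι → ℝ) := fun i => hbs (e i).2
  choose τ hτ using hex
  refine ⟨τ, ?_⟩
  have hrows : LinearIndependent ℝ (fun i' : ι => (fun i => (g i).eval (τ i'))) := by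
    have h1 : (fun i' : ι => (fun i => (g i).eval (τ i'))) = fun i' => (e i' : ι → ℝ) := by
      funext i'
      exact hτ i'
    rw [h1]
    exact hbind.comp e e.injective
  have h5 : IsUnit (Matrix.of fun i' i => (g i).eval (τ i')) :=
    Matrix.linearIndependent_rows_iff_isUnit.1 hrows
  exact ((Matrix.isUnit_iff_isUnit_det _).1 h5).ne_zero

lemma exists_sample_points (a : ℕ) (T : Type*) [Fintype T] [DecidableEq T]
    (h : 2 ^ (Fintype.card T - 1) ≤ a) :
    ∃ (y : T → ℝ) (τ : Finset T → ℝ),
      (Matrix.of fun B A : Finset T => ∏ i ∈ A, (τ B - y i) ^ a).det ≠ 0 := by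
  classical
  obtain ⟨U, hU, hind⟩ := exists_indep a (Fintype.card T) h
  have hc : Fintype.card T = Fintype.card U := by rw [Fintype.card_coe, hU]
  let e : T ≃ U := Fintype.equivOfCardEq hc
  let y : T → ℝ := fun i => (e i : ℝ)
  have hy : Function.Injective y := fun i j hij => e.injective (Subtype.ext hij)
  let g : Finset T → ℝ[X] := fun A => gp a (A.map ⟨y, hy⟩)
  have hg : LinearIndependent ℝ g := by
    rw [Fintype.linearIndependent_iff]
    intro c hc A
    let c' : Finset ℝ → ℝ := fun B => c (univ.filter (fun i => y i ∈ B))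
    have hfil : ∀ A : Finset T, univ.filter (fun i => y i ∈ A.map ⟨y, hy⟩) = A := by
      intro A
      ext i
      simp only [Finset.mem_filter, Finset.mem_univ, true_and, Finset.mem_map,
        Function.Embedding.coeFn_mk]
      constructor
      · rintro ⟨j, hj, hji⟩
        rwa [← hy hji]
      · intro hi
        exact ⟨i, hi, rfl⟩
    have hsum : ∑ B ∈ U.powerset, c' B • gp a B = ∑ A : Finset T, c A • g A := by
      symm
      refine Finset.sum_bij (fun A _ => A.map ⟨y, hy⟩) ?_ ?_ ?_ ?_
      · intro A _
        rw [Finset.mem_powerset]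
        intro s hs
        obtain ⟨i, _, rfl⟩ := Finset.mem_map.1 hs
        exact (e i).2
      · intro A _ B _ hAB
        exact Finset.map_injective _ hAB
      · intro B hB
        refine ⟨univ.filter (fun i => y i ∈ B), Finset.mem_univ _, ?_⟩
        ext s
        simp only [Finset.mem_map, Finset.mem_filter, Finset.mem_univ, true_and,
          Function.Embedding.coeFn_mk]
        constructor
        · rintro ⟨i, hi, rfl⟩
          exact hi
        · intro hs
          refine ⟨e.symm ⟨s, Finset.mem_powerset.1 hB hs⟩, ?_, ?_⟩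
          · simpa [y] using hs
          · simp [y]
      · intro A _
        simp only [c', hfil, g]
    rw [hc] at hsum
    have h1 := hind c' hsum (A.map ⟨y, hy⟩) (by
      rw [Finset.mem_powerset]
      intro s hs
      obtain ⟨i, _, rfl⟩ := Finset.mem_map.1 hs
      exact (e i).2)
    simpa only [c', hfil] using h1
  obtain ⟨τ, hτ⟩ := exists_sample g hg
  refine ⟨y, τ, ?_⟩
  convert hτ using 3
  funext B A
  simp only [g, gp, Finset.prod_map, Function.Embedding.coeFn_mk, eval_prod, eval_pow, eval_sub,
    eval_X, eval_C]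

end Pool.Agent.Work.MP_3a76b1_co
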