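import Pool.Agent.Work.MP_3a76b1_co.Expand
import Pool.Agent.Work.MP_3a76b1_co.Sample

/-!
Elimination of the star of a vertex for weights given by a-th powers.
-/

namespace Pool.Agent.Work.MP_3a76b1_co

open Finset

section Star

variable {V : Type*} [Fintype V] [DecidableEq V] {r : V} {d : ℕ}

/-- mixed weights: a-th powers on F, unit vectors elsewhere. -/
def wR (a : ℕ) (hd tl : Wd r d → V) (F : Finset (Wd r d)) (κ : Wd r d → Fin d)
    (x : V × Fin d → ℝ) (i : Wd r d) (k : Fin d) : ℝ :=
  if i ∈ F then (x (hd i, k) - x (tl i, k)) ^ a else if k = κ i then 1 else 0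

/-- the polynomial version of the mixed matrix. -/
noncomputable def PM (a : ℕ) (hd tl : Wd r d → V) (F : Finset (Wd r d)) (κ : Wd r d → Fin d) :
    Matrix (Wd r d) (Wd r d) (MvPolynomial (V × Fin d) ℝ) :=
  Matrix.of fun i j =>
    (if i ∈ F then (MvPolynomial.X (hd i, j.2) - MvPolynomial.X (tl i, j.2)) ^ a
      else if j.2 = κ i then 1 else 0) * MvPolynomial.C (inc hd tl i j.1)

lemma eval_PM (a : ℕ) (hd tl : Wd r d → V) (F : Finset (Wd r d)) (κ : Wd r d → Fin d)
    (x : V × Fin d → ℝ) :
    MvPolynomial.eval x (PM a hd tl F κ).det = (Mat hd tl (wR a hd tl F κ x)).det := by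
  rw [RingHom.map_det]
  congr 1
  ext i j
  simp only [RingHom.mapMatrix_apply, Matrix.map_apply, PM, Matrix.of_apply, Mat, wR, map_mul,
    MvPolynomial.eval_C]
  split_ifs <;> simp

/-- nonvanishing of the mixed determinant somewhere. -/
def NV (a : ℕ) (hd tl : Wd r d → V) (F : Finset (Wd r d)) (κ : Wd r d → Fin d) : Prop :=
  ∃ x : V × Fin d → ℝ, (Mat hd tl (wR a hd tl F κ x)).det ≠ 0

lemma PM_ne_zero {a : ℕ} {hd tl : Wd r d → V} {F : Finset (Wd r d)} {κ : Wd r d → Fin d}
    (h : NV a hd tl F κ) : (PM a hd tl F κ).det ≠ 0 := by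
  obtain ⟨x, hx⟩ := h
  intro h0
  apply hx
  rw [← eval_PM, h0, map_zero]

/-- the edges of F at v. -/
def star (hd tl : Wd r d → V) (F : Finset (Wd r d)) (v : V) : Finset (Wd r d) :=
  F.filter (fun i => hd i = v ∨ tl i = v)

lemma star_step (a : ℕ) (hd tl : Wd r d → V) (hne : ∀ i, hd i ≠ tl i)
    (hinj : Function.Injective (fun i => s(hd i, tl i))) (F : Finset (Wd r d))
    (κ : Wd r d → Fin d) (v : V) (ha : 2 ^ ((star hd tl F v).card - 1) ≤ a)
    (h : NV a hd tl (F \ star hd tl F v) κ) : NV a hd tl F κ := by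
  classical
  set S := star hd tl F v with hS
  set F' := F \ S with hF'
  have hSF : S ⊆ F := Finset.filter_subset _ _
  -- other endpoint
  let o : S → V := fun i => if hd i = v then tl i else hd i
  have hov : ∀ i, o i ≠ v := by
    intro i
    simp only [o]
    split_ifs with h1
    · intro h2
      exact hne i (h1.trans h2.symm)
    · exact h1
  have hSv : ∀ i : S, hd i = v ∨ tl i = v := fun i => (Finset.mem_filter.1 i.2).2
  have hoinj : Function.Injective o := by
    intro i j hij
    apply Subtype.ext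
    apply hinj
    have hi : s(hd i, tl i) = s(v, o i) := by
      simp only [o]
      split_ifs with h1
      · rw [h1]
      · rw [(hSv i).resolve_left h1, Sym2.eq_swap]
    have hj : s(hd j, tl j) = s(v, o j) := by
      simp only [o]
      split_ifs with h1
      · rw [h1]
      · rw [(hSv j).resolve_left h1, Sym2.eq_swap]
    change s(hd i, tl i) = s(hd j, tl j)
    rw [hi, hj, hij]
  obtain ⟨y, τ, hyτ⟩ := exists_sample_points a S (by rw [Fintype.card_coe]; exact ha)
  -- sample determinants as polynomials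
  let δ : Fin d → MvPolynomial (V × Fin d) ℝ := fun k =>
    (Matrix.of fun B A : Finset S =>
      ∏ i ∈ A, (MvPolynomial.C (τ B) - MvPolynomial.X (o i, k)) ^ a).det
  have hδeval : ∀ k (x : V × Fin d → ℝ), MvPolynomial.eval x (δ k) =
      (Matrix.of fun B A : Finset S => ∏ i ∈ A, (τ B - x (o i, k)) ^ a).det := by
    intro k x
    simp only [δ]
    rw [RingHom.map_det]
    congr 1
    ext B A
    simp [RingHom.mapMatrix_apply, Matrix.map_apply, Matrix.of_apply, map_prod]
  have hδ : ∀ k, δ k ≠ 0 := by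
    intro k h0
    let x : V × Fin d → ℝ := fun p => if h : ∃ i, o i = p.1 then y h.choose else 0
    have hx : ∀ i, x (o i, k) = y i := by
      intro i
      have hex : ∃ j, o j = o i := ⟨i, rfl⟩
      simp only [x]
      rw [dif_pos hex]
      congr 1
      exact hoinj hex.choose_spec
    apply hyτ
    have := hδeval k x
    rw [h0, map_zero] at this
    rw [this]
    congr 1
    ext B A
    simp only [Matrix.of_apply, hx]
  have hprod : (PM a hd tl F' κ).det * ∏ k, δ k ≠ 0 :=
    mul_ne_zero (PM_ne_zero h) (Finset.prod_ne_zero_iff.2 (fun k _ => hδ k))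
  obtain ⟨x, hx⟩ : ∃ x : V × Fin d → ℝ,
      MvPolynomial.eval x ((PM a hd tl F' κ).det * ∏ k, δ k) ≠ 0 := by
    by_contra hcon
    push Not at hcon
    apply hprod
    apply MvPolynomial.funext
    intro x
    rw [hcon x, map_zero]
  rw [map_mul, map_prod] at hx
  have hx1 : (Mat hd tl (wR a hd tl F' κ x)).det ≠ 0 := by
    rw [← eval_PM]
    exact left_ne_zero_of_mul hx
  have hx2 : ∀ k, (Matrix.of fun B A : Finset S => ∏ i ∈ A, (τ B - x (o i, k)) ^ a).det ≠ 0 := by
    intro k
    rw [← hδeval]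
    exact Finset.prod_ne_zero_iff.1 (right_ne_zero_of_mul hx) k (Finset.mem_univ k)
  let M : Fin d → Matrix (Finset S) (Finset S) ℝ := fun k =>
    Matrix.of fun B A => ∏ i ∈ A, (τ B - x (o i, k)) ^ a
  let cls : (Wd r d → Fin d) → Fin d → Finset S := fun κ' k =>
    univ.filter (fun i : S => κ' i = k)
  let ψ : Fin d → Finset S → ℝ := fun k B => (M k)⁻¹ (cls κ k) B
  have hψ : ∀ k A, ∑ B, ψ k B * M k B A = if cls κ k = A then 1 else 0 := by
    intro k A
    have h1 : (M k)⁻¹ * M k = 1 := Matrix.nonsing_inv_mul _ (isUnit_iff_ne_zero.2 (hx2 k))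
    have h2 := congrFun (congrFun h1 (cls κ k)) A
    rw [Matrix.mul_apply, Matrix.one_apply] at h2
    exact h2
  by_contra hcon
  rw [NV] at hcon
  push Not at hcon
  let xt : (Fin d → ℝ) → (V × Fin d → ℝ) := fun t p => if p.1 = v then t p.2 else x p
  let sg : Wd r d → ℝ := fun i => if hd i = v then 1 else (-1) ^ a
  have hsg : ∀ i, sg i ≠ 0 := by
    intro i
    simp only [sg]
    split_ifs
    · exact one_ne_zero
    · exact pow_ne_zero _ (by norm_num)
  -- weights at the star
  have hw1 : ∀ (t : Fin d → ℝ) (i : S) (k : Fin d),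
      wR a hd tl F κ (xt t) i k = sg i * (t k - x (o i, k)) ^ a := by
    intro t i k
    rw [wR, if_pos (hSF i.2)]
    simp only [xt, sg, o]
    by_cases h1 : hd i = v
    · have h2 : tl i ≠ v := fun h => hne i (h1.trans h.symm)
      rw [if_pos h1, if_neg h2, if_pos h1, if_pos h1, one_mul]
    · have h2 : tl i = v := (hSv i).resolve_left h1
      rw [if_neg h1, if_pos h2, if_neg h1, if_neg h1, ← mul_pow]
      congr 1
      ring
  have hw2 : ∀ (t : Fin d → ℝ) (i : Wd r d) (k : Fin d), i ∉ S →
      wR a hd tl F κ (xt t) i k = wR a hd tl F' κ x i k := by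
    intro t i k hi
    by_cases hiF : i ∈ F
    · have h1 : ¬ (hd i = v ∨ tl i = v) := fun h => hi (Finset.mem_filter.2 ⟨hiF, h⟩)
      rw [not_or] at h1
      have h2 : i ∈ F' := Finset.mem_sdiff.2 ⟨hiF, hi⟩
      rw [wR, wR, if_pos hiF, if_pos h2]
      simp only [xt]
      rw [if_neg h1.1, if_neg h1.2]
    · have h2 : i ∉ F' := fun h => hiF (Finset.mem_sdiff.1 h).1
      rw [wR, wR, if_neg hiF, if_neg h2]
  have hw3 : ∀ (i : S) (k : Fin d), wR a hd tl F' κ x i k = if k = κ i then 1 else 0 := by
    intro i k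
    have h2 : (i : Wd r d) ∉ F' := fun h => (Finset.mem_sdiff.1 h).2 i.2
    rw [wR, if_neg h2]
  -- the product over the star as a product over the colours
  have hcol : ∀ (κ' : Wd r d → Fin d) (B : Fin d → Finset S),
      ∏ i : S, wR a hd tl F κ (xt (fun k => τ (B k))) i (κ' i) =
        (∏ i : S, sg i) * ∏ k, M k (B k) (cls κ' k) := by
    intro κ' B
    simp_rw [hw1]
    rw [Finset.prod_mul_distrib]
    congr 1
    rw [← Finset.prod_fiberwise univ (fun i : S => κ' i)]
    refine Finset.prod_congr rfl (fun k _ => ?_)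
    simp only [M, Matrix.of_apply, cls]
    refine Finset.prod_congr rfl (fun i hi => ?_)
    rw [(Finset.mem_filter.1 hi).2]
  have key : ∑ B : Fin d → Finset S, (∏ k, ψ k (B k)) *
      (Mat hd tl (wR a hd tl F κ (xt (fun k => τ (B k))))).det =
      (∏ i : S, sg i) * (Mat hd tl (wR a hd tl F' κ x)).det := by
    simp_rw [det_expand, Finset.mul_sum]
    rw [Finset.sum_comm]
    refine Finset.sum_congr rfl (fun κ' _ => ?_)
    have hsplit : ∀ f : Wd r d → ℝ, ∏ i, f i = (∏ i : S, f i) * ∏ i ∈ Sᶜ, f i := by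
      intro f
      rw [Finset.prod_coe_sort S f, Finset.prod_mul_prod_compl]
    have h1 : ∀ B : Fin d → Finset S,
        (∏ k, ψ k (B k)) * ((∏ i, wR a hd tl F κ (xt (fun k => τ (B k))) i (κ' i)) *
          coef hd tl κ') =
        (∏ k, (ψ k (B k) * M k (B k) (cls κ' k))) * ((∏ i : S, sg i) *
          (∏ i ∈ Sᶜ, wR a hd tl F' κ x i (κ' i)) * coef hd tl κ') := by
      intro B
      rw [hsplit, hcol, Finset.prod_mul_distrib]
      have h2 : ∏ i ∈ Sᶜ, wR a hd tl F κ (xt (fun k => τ (B k))) i (κ' i) =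
          ∏ i ∈ Sᶜ, wR a hd tl F' κ x i (κ' i) :=
        Finset.prod_congr rfl
          (fun i hi => hw2 (fun k => τ (B k)) i (κ' i) (Finset.mem_compl.1 hi))
      rw [h2]
      ring
    simp_rw [h1]
    have h5 : ∑ B : Fin d → Finset S, ∏ k, (ψ k (B k) * M k (B k) (cls κ' k)) =
        ∏ k, ∑ B, ψ k B * M k B (cls κ' k) := by
      have h6 := Finset.prod_univ_sum (fun _ : Fin d => (univ : Finset (Finset S)))
        (fun k B => ψ k B * M k B (cls κ' k))
      rw [Fintype.piFinset_univ] at h6
      exact h6.symm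
    rw [← Finset.sum_mul, h5]
    simp_rw [hψ]
    have h3 : (∏ k, (if cls κ k = cls κ' k then (1:ℝ) else 0)) =
        ∏ i : S, wR a hd tl F' κ x i (κ' i) := by
      simp_rw [hw3]
      by_cases hall : ∀ i : S, κ' i = κ i
      · rw [Finset.prod_eq_one, Finset.prod_eq_one]
        · intro i _
          rw [if_pos (hall i)]
        · intro k _
          rw [if_pos]
          simp only [cls]
          refine Finset.filter_congr (fun i _ => ?_)
          rw [hall i]
      · push Not at hall
        obtain ⟨i, hi⟩ := hall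
        rw [Finset.prod_eq_zero (Finset.mem_univ (κ i)), Finset.prod_eq_zero (Finset.mem_univ i)]
        · rw [if_neg hi]
        · rw [if_neg]
          intro h4
          have : i ∈ cls κ (κ i) := by simp [cls]
          rw [h4] at this
          apply hi
          simpa [cls] using this
    rw [h3, hsplit (fun i => wR a hd tl F' κ x i (κ' i))]
    ring
  rw [Finset.sum_eq_zero] at key
  · have h7 : (∏ i : S, sg i) ≠ 0 := Finset.prod_ne_zero_iff.2 (fun (i : S) _ => hsg i)
    exact mul_ne_zero h7 hx1 key.symm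
  · intro B _
    rw [hcon, mul_zero]

lemma exists_low (hd tl : Wd r d → V) (hsp : Sparse hd tl d) (F : Finset (Wd r d))
    (hF : F.Nonempty) : ∃ v, (star hd tl F v).Nonempty ∧ (star hd tl F v).card ≤ 2 * d - 1 := by
  classical
  obtain ⟨i0, hi0⟩ := hF
  have hd0 : 0 < d := lt_of_le_of_lt (Nat.zero_le _) i0.2.2
  let VF : Finset V := univ.filter (fun v => (star hd tl F v).Nonempty)
  have hhd : ∀ i ∈ F, hd i ∈ VF := fun i hi =>
    Finset.mem_filter.2 ⟨Finset.mem_univ _, ⟨i, Finset.mem_filter.2 ⟨hi, Or.inl rfl⟩⟩⟩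
  have htl : ∀ i ∈ F, tl i ∈ VF := fun i hi =>
    Finset.mem_filter.2 ⟨Finset.mem_univ _, ⟨i, Finset.mem_filter.2 ⟨hi, Or.inr rfl⟩⟩⟩
  have hVF : VF.Nonempty := ⟨hd i0, hhd i0 hi0⟩
  have h1 : F.card + d ≤ d * VF.card := by
    refine le_trans (Nat.add_le_add_right (Finset.card_le_card ?_) d) (hsp VF hVF)
    intro i hi
    simp only [Finset.mem_filter, Finset.mem_univ, true_and]
    exact ⟨hhd i hi, htl i hi⟩
  by_contra hcon
  push Not at hcon
  have h2 : ∀ v ∈ VF, 2 * d ≤ (star hd tl F v).card := by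
    intro v hv
    have := hcon v (Finset.mem_filter.1 hv).2
    omega
  have h3 : VF.card * (2 * d) ≤ ∑ v ∈ VF, (star hd tl F v).card := by
    have := Finset.sum_le_sum h2
    rwa [Finset.sum_const, smul_eq_mul] at this
  have h4 : ∑ v ∈ VF, (star hd tl F v).card ≤ 2 * F.card := by
    have h5 : ∀ v, (star hd tl F v).card ≤
        (F.filter (fun i => hd i = v)).card + (F.filter (fun i => tl i = v)).card := by
      intro v
      rw [star, Finset.filter_or]
      exact Finset.card_union_le _ _
    refine le_trans (Finset.sum_le_sum (fun v _ => h5 v)) ?_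
    rw [Finset.sum_add_distrib, two_mul]
    refine Nat.add_le_add ?_ ?_
    · rw [← Finset.card_eq_sum_card_fiberwise (f := hd) (t := VF) (fun i hi => hhd i hi)]
    · rw [← Finset.card_eq_sum_card_fiberwise (f := tl) (t := VF) (fun i hi => htl i hi)]
  have h6 : VF.card * (2 * d) = 2 * (d * VF.card) := by ring
  omega

theorem nv_all (a : ℕ) (ha : 4 ^ (d - 1) ≤ a) (hd tl : Wd r d → V) (hne : ∀ i, hd i ≠ tl i)
    (hinj : Function.Injective (fun i => s(hd i, tl i))) (hsp : Sparse hd tl d)
    (κ : Wd r d → Fin d) (hκ : coef hd tl κ ≠ 0) :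
    ∀ n (F : Finset (Wd r d)), F.card = n → NV a hd tl F κ := by
  classical
  intro n
  induction n using Nat.strong_induction_on with
  | _ n ih =>
    intro F hF
    rcases F.eq_empty_or_nonempty with h0 | hne'
    · subst h0
      refine ⟨0, ?_⟩
      have : wR a hd tl ∅ κ 0 = fun i => Pi.single (κ i) (1:ℝ) := by
        funext i k
        rw [wR, if_neg (Finset.notMem_empty i), Pi.single_apply]
      rw [this]
      exact hκ
    · obtain ⟨v, hv1, hv2⟩ := exists_low hd tl hsp F hne'
      have hsub : star hd tl F v ⊆ F := Finset.filter_subset _ _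
      refine star_step a hd tl hne hinj F κ v ?_ ?_
      · refine le_trans ?_ ha
        rw [show (4:ℕ) = 2 ^ 2 by norm_num, ← pow_mul]
        exact Nat.pow_le_pow_right (by norm_num) (by omega)
      · refine ih (F \ star hd tl F v).card ?_ _ rfl
        rw [Finset.card_sdiff_of_subset hsub, hF]
        have h1 := Finset.card_pos.2 hv1
        have h2 := Finset.card_le_card hsub
        omega

end Star

end Pool.Agent.Work.MP_3a76b1_co
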