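import Pool.Agent.Work.MP_3a76b1_co.Bridge
import Pool.Agent.Work.MP_3a76b1_co.StarElim

/-!
Nonvanishing determinants for large natural exponents.
-/

namespace Pool.Agent.Work.MP_3a76b1_co

open Finset

theorem exists_det_ne_zero_nat {V : Type*} [Fintype V] [DecidableEq V] {r : V} {d : ℕ}
    (a : ℕ) (ha : 4 ^ (d - 1) ≤ a) (hd tl : Wd r d → V) (hne : ∀ i, hd i ≠ tl i)
    (hinj : Function.Injective (fun i => s(hd i, tl i))) (hsp : Sparse hd tl d) :
    ∃ x : V → Fin d → ℝ, (∀ i k, x (hd i) k ≠ x (tl i) k) ∧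
      (Mat hd tl (fun i k => |x (hd i) k - x (tl i) k| ^ (a - 1) *
        (x (hd i) k - x (tl i) k))).det ≠ 0 := by
  classical
  have ha1 : 1 ≤ a := le_trans (Nat.one_le_pow _ _ (by norm_num)) ha
  obtain ⟨κ, hκ⟩ := nw hd tl d hsp
  have hcoef := coef_ne_zero hd tl κ hκ
  have hNV : NV a hd tl univ κ := nv_all a ha hd tl hne hinj hsp κ hcoef _ univ rfl
  have hPM := PM_ne_zero hNV
  let ord : V ≃ Fin (Fintype.card V) := Fintype.equivFin V
  let s : V × Fin d → Set ℝ := fun p => Set.Ioo ((ord p.1 : ℕ) : ℝ) ((ord p.1 : ℕ) + 1 / 2)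
  have hs : ∀ p, (s p).Infinite := fun p => Set.Ioo_infinite (by linarith)
  obtain ⟨x, hxs, hx⟩ : ∃ x ∈ Set.pi Set.univ s,
      MvPolynomial.eval x (PM a hd tl univ κ).det ≠ 0 := by
    by_contra hcon
    push Not at hcon
    apply hPM
    apply MvPolynomial.funext_set s hs
    intro x hx
    rw [hcon x hx, map_zero]
  rw [eval_PM] at hx
  have hxs' : ∀ v k, ((ord v : ℕ) : ℝ) < x (v, k) ∧ x (v, k) < (ord v : ℕ) + 1 / 2 :=
    fun v k => hxs (v, k) (Set.mem_univ _)
  -- comparison of coordinates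
  have hlt : ∀ u v k, ord u < ord v → x (u, k) < x (v, k) := by
    intro u v k huv
    have h1 := (hxs' u k).2
    have h2 := (hxs' v k).1
    have h3 : ((ord u : ℕ) : ℝ) + 1 ≤ ((ord v : ℕ) : ℝ) := by
      exact_mod_cast huv
    linarith
  have hne' : ∀ i k, x (hd i, k) ≠ x (tl i, k) := by
    intro i k
    rcases lt_or_gt_of_ne (fun h => hne i (ord.injective h)) with h | h
    · exact (hlt _ _ k h).ne
    · exact (hlt _ _ k h).ne'
  let σ : Wd r d → ℝ := fun i => if ord (tl i) < ord (hd i) then 1 else (-1) ^ (a + 1)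
  have hσ : ∀ i, σ i ≠ 0 := by
    intro i
    simp only [σ]
    split_ifs
    · exact one_ne_zero
    · exact pow_ne_zero _ (by norm_num)
  refine ⟨fun v k => x (v, k), hne', ?_⟩
  have hmat : Mat hd tl (fun i k => |x (hd i, k) - x (tl i, k)| ^ (a - 1) *
        (x (hd i, k) - x (tl i, k))) =
      Matrix.of fun i j => σ i * Mat hd tl (wR a hd tl univ κ x) i j := by
    ext i j
    simp only [Mat, Matrix.of_apply]
    rw [← mul_assoc]
    congr 1
    rw [wR, if_pos (Finset.mem_univ i)]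
    obtain ⟨b, rfl⟩ : ∃ b, a = b + 1 := ⟨a - 1, by omega⟩
    simp only [Nat.add_sub_cancel, σ]
    split_ifs with h
    · rw [abs_of_pos (sub_pos.2 (hlt _ _ j.2 h)), one_mul, pow_succ]
    · have h1 : ord (hd i) < ord (tl i) :=
        lt_of_le_of_ne (not_lt.1 h) (fun h => hne i (ord.injective h))
      have h2 : x (hd i, j.2) - x (tl i, j.2) < 0 := sub_neg.2 (hlt _ _ j.2 h1)
      rw [abs_of_neg h2]
      have h3 : (-(x (hd i, j.2) - x (tl i, j.2))) ^ b =
          (-1) ^ b * (x (hd i, j.2) - x (tl i, j.2)) ^ b := by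
        rw [← mul_pow]
        congr 1
        ring
      rw [h3]
      ring
  rw [hmat, Matrix.det_mul_column]
  exact mul_ne_zero (Finset.prod_ne_zero_iff.2 (fun i _ => hσ i)) hx

end Pool.Agent.Work.MP_3a76b1_co
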