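import Pool.Agent.Work.MP_3a76b1_co.NW

/-!
The grounded rigidity determinant and its expansion over edge colourings.
-/

namespace Pool.Agent.Work.MP_3a76b1_co

open Finset

section Expand

variable {V : Type*} [Fintype V] [DecidableEq V] {r : V} {d : ℕ}

/-- grounded index set. -/
abbrev Wd (r : V) (d : ℕ) : Type _ := {v : V // v ≠ r} × Fin d

/-- the grounded rigidity matrix for weights w. -/
def Mat (hd tl : Wd r d → V) (w : Wd r d → Fin d → ℝ) : Matrix (Wd r d) (Wd r d) ℝ :=
  Matrix.of fun i j => w i j.2 * inc hd tl i j.1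

/-- coefficient of a colouring. -/
def coef (hd tl : Wd r d → V) (κ : Wd r d → Fin d) : ℝ :=
  (Mat hd tl (fun i => Pi.single (κ i) 1)).det

theorem det_expand (hd tl : Wd r d → V) (w : Wd r d → Fin d → ℝ) :
    (Mat hd tl w).det = ∑ κ : Wd r d → Fin d, (∏ i, w i (κ i)) * coef hd tl κ := by
  classical
  have h1 : (Mat hd tl w) = fun i => ∑ k : Fin d,
      w i k • (Mat hd tl (fun i => Pi.single k 1)) i := by
    ext i j
    rw [Finset.sum_apply]
    simp only [Mat, Matrix.of_apply, Pi.smul_apply, smul_eq_mul, Pi.single_apply]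
    simp
  have h2 : (Mat hd tl w).det = Matrix.detRowAlternating (fun i => ∑ k : Fin d,
      w i k • (Mat hd tl (fun i => Pi.single k 1)) i) := by
    rw [← h1]; rfl
  rw [h2]
  have h3 := MultilinearMap.map_sum
    (Matrix.detRowAlternating (n := Wd r d) (R := ℝ)).toMultilinearMap
    (fun (i : Wd r d) (k : Fin d) => w i k • (Mat hd tl (fun i => Pi.single k 1)) i)
  rw [AlternatingMap.coe_multilinearMap] at h3
  rw [h3]
  refine Finset.sum_congr rfl (fun κ _ => ?_)
  have h4 := MultilinearMap.map_smul_univ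
    (Matrix.detRowAlternating (n := Wd r d) (R := ℝ)).toMultilinearMap
    (fun i => w i (κ i)) (fun i => (Mat hd tl (fun i => Pi.single (κ i) 1)) i)
  rw [AlternatingMap.coe_multilinearMap] at h4
  have h5 : (fun i => w i (κ i) • Mat hd tl (fun _ => Pi.single (κ i) 1) i) =
      (fun i => w i (κ i) • Mat hd tl (fun i => Pi.single (κ i) 1) i) := by
    ext i j
    simp [Mat]
  rw [h5, h4]
  rfl

lemma sum_inc (hd tl : Wd r d → V) (i : Wd r d) : ∑ v, inc hd tl i v = 0 := by
  simp [inc]

lemma coef_ne_zero (hd tl : Wd r d → V) (κ : Wd r d → Fin d)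
    (h : ∀ k, LinearIndepOn ℝ (inc hd tl) {i | κ i = k}) : coef hd tl κ ≠ 0 := by
  classical
  intro h0
  rw [coef] at h0
  obtain ⟨a, ha, ha0⟩ := (Matrix.exists_vecMul_eq_zero_iff).2 h0
  apply ha
  have key : ∀ k, ∑ i ∈ univ.filter (fun i => κ i = k), a i • inc hd tl i = 0 := by
    intro k
    have h1 : ∀ v, v ≠ r →
        (∑ i ∈ univ.filter (fun i => κ i = k), a i • inc hd tl i) v = 0 := by
      intro v hv
      have := congrFun ha0 (⟨v, hv⟩, k)
      simp only [Matrix.vecMul, dotProduct, Mat, Matrix.of_apply, Pi.zero_apply] at this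
      rw [Finset.sum_apply, Finset.sum_filter]
      refine Eq.trans ?_ this
      refine Finset.sum_congr rfl (fun i _ => ?_)
      by_cases hk : κ i = k
      · subst hk
        simp
      · have h5 : k ≠ κ i := fun h => hk h.symm
        simp [hk, Pi.single_apply, h5]
    have h2 : ∑ v, (∑ i ∈ univ.filter (fun i => κ i = k), a i • inc hd tl i) v = 0 := by
      simp only [Finset.sum_apply, Pi.smul_apply]
      rw [Finset.sum_comm]
      refine Finset.sum_eq_zero (fun i _ => ?_)
      rw [← Finset.smul_sum, sum_inc, smul_zero]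
    ext v
    by_cases hv : v = r
    · subst hv
      rw [← Finset.add_sum_erase _ _ (Finset.mem_univ v)] at h2
      rw [Finset.sum_eq_zero (s := univ.erase v), add_zero] at h2
      · exact h2
      · intro x hx
        exact h1 x (Finset.ne_of_mem_erase hx)
    · exact h1 v hv
  ext i
  have hi := h (κ i)
  have hi2 := (linearIndepOn_iff' (s := {i' | κ i' = κ i})).1 hi
    (univ.filter (fun i' => κ i' = κ i)) a (by intro x hx; simpa using hx) (key (κ i))
    i (by simp)
  simpa using hi2

theorem const_of_det_ne_zero (hd tl : Wd r d → V) (w : Wd r d → Fin d → ℝ)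
    (h : (Mat hd tl w).det ≠ 0) (u : V → Fin d → ℝ)
    (hu : ∀ i, ∑ k, w i k * (u (hd i) k - u (tl i) k) = 0) (v : V) : u v = u r := by
  classical
  let x : Wd r d → ℝ := fun j => u j.1 j.2 - u r j.2
  have hx : (Mat hd tl w).mulVec x = 0 := by
    ext i
    simp only [Matrix.mulVec, dotProduct, Mat, Matrix.of_apply, Pi.zero_apply]
    rw [Fintype.sum_prod_type_right, ← hu i]
    refine Finset.sum_congr rfl (fun k _ => ?_)
    have h1 : ∑ v : {v : V // v ≠ r}, w i k * inc hd tl i v * x (v, k) =
        ∑ v : V, w i k * inc hd tl i v * (u v k - u r k) := by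
      rw [← Finset.add_sum_erase _ _ (Finset.mem_univ r)]
      rw [sub_self, mul_zero, zero_add]
      symm
      apply Finset.sum_subtype
      intro v
      simp
    rw [h1]
    simp only [inc, Pi.sub_apply, Pi.single_apply]
    simp only [mul_assoc, sub_mul, mul_sub]
    simp [Finset.sum_sub_distrib]
  have hx0 : x = 0 := by
    by_contra hne
    exact h ((Matrix.exists_mulVec_eq_zero_iff).1 ⟨x, hne, hx⟩)
  by_cases hv : v = r
  · rw [hv]
  · ext k
    have := congrFun hx0 (⟨v, hv⟩, k)
    simp only [x, Pi.zero_apply] at this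
    linarith

end Expand

end Pool.Agent.Work.MP_3a76b1_co
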