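import Mathlib

/-!
The derivative of the finite dimensional l^q norm for 1 < q < infinity.
-/

namespace Pool.Agent.Work.MP_3a76b1_co

open Finset Filter Topology

open scoped ENNReal

lemma norm_hasFDeriv {d : ℕ} {q : ℝ≥0∞} [Fact (1 ≤ q)] (hq1 : 1 < q) (hq : q ≠ ⊤)
    (z : PiLp q (fun _ : Fin d => ℝ)) (hz : z ≠ 0) :
    ∃ c : ℝ, 0 < c ∧ ∃ L : PiLp q (fun _ : Fin d => ℝ) →L[ℝ] ℝ,
      HasFDerivAt (fun z : PiLp q (fun _ : Fin d => ℝ) => ‖z‖) L z ∧
      ∀ u, L u = c * ∑ k, |z k| ^ (q.toReal - 2) * z k * u k := by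
  have hp1 : 1 < q.toReal := by
    have := (ENNReal.toReal_lt_toReal (by simp) hq).2 hq1
    simpa using this
  have hp0 : 0 < q.toReal := by linarith
  set p := q.toReal with hp
  have hnorm : (fun z : PiLp q (fun _ : Fin d => ℝ) => ‖z‖) =
      fun z => (∑ k, |z k| ^ p) ^ (1 / p) := by
    ext y
    rw [PiLp.norm_eq_sum hp0]
    simp only [Real.norm_eq_abs]
    rfl
  have hS : 0 < ∑ k, |z k| ^ p := by
    have : z ≠ 0 ↔ ∃ k, z k ≠ 0 := by
      constructor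
      · intro h
        by_contra hcon
        push Not at hcon
        apply h
        ext k
        simpa using hcon k
      · rintro ⟨k, hk⟩ h
        rw [h] at hk
        simp at hk
    obtain ⟨k, hk⟩ := this.1 hz
    refine Finset.sum_pos' (fun i _ => Real.rpow_nonneg (abs_nonneg _) _) ⟨k, mem_univ k, ?_⟩
    exact Real.rpow_pos_of_pos (abs_pos.2 hk) _
  have hk : ∀ k : Fin d, HasFDerivAt (fun z : PiLp q (fun _ : Fin d => ℝ) => |z k| ^ p)
      ((p * |z k| ^ (p - 2) * z k) • (PiLp.proj (𝕜 := ℝ) q (fun _ : Fin d => ℝ) k)) z := by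
    intro k
    have h1 := (hasDerivAt_abs_rpow (z k) hp1).comp_hasFDerivAt (𝕜 := ℝ) z
      (PiLp.proj (𝕜 := ℝ) q (fun _ : Fin d => ℝ) k).hasFDerivAt
    exact h1
  have hsum : HasFDerivAt (fun z : PiLp q (fun _ : Fin d => ℝ) => ∑ k, |z k| ^ p)
      (∑ k, (p * |z k| ^ (p - 2) * z k) • (PiLp.proj (𝕜 := ℝ) q (fun _ : Fin d => ℝ) k)) z :=
    HasFDerivAt.fun_sum (fun k _ => hk k)
  have htot := HasFDerivAt.rpow_const (p := 1 / p) hsum (Or.inl hS.ne')
  rw [hnorm]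
  refine ⟨(1 / p) * (∑ k, |z k| ^ p) ^ (1 / p - 1) * p, by positivity, _, htot, ?_⟩
  intro u
  simp only [FunLike.coe_smul, Pi.smul_apply, ContinuousLinearMap.sum_apply, PiLp.proj_apply,
    smul_eq_mul]
  rw [mul_assoc ((1 / p) * (∑ k, |z k| ^ p) ^ (1 / p - 1)), Finset.mul_sum (a := p)]
  congr 1
  refine Finset.sum_congr rfl (fun k _ => ?_)
  ring

end Pool.Agent.Work.MP_3a76b1_co
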