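import Pool.Agent.Work.MP_3a76b1_co.Defs
import Pool.Agent.Work.MP_3a76b1_co.Expand
import Pool.Agent.Work.MP_3a76b1_co.Norm

/-!
From simple graphs to indexed families of edges, and from nonvanishing determinants to rigid
placements.
-/

namespace Pool.Agent.Work.MP_3a76b1_co

open Finset Filter Topology

open scoped ENNReal

theorem exists_index {V : Type*} [Fintype V] [DecidableEq V] (G : SimpleGraph V) {d : ℕ}
    (hd1 : 1 ≤ d) (hG : IsTight G d) :
    ∃ (r : V) (hd tl : Wd r d → V), (∀ i, G.Adj (hd i) (tl i)) ∧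
      Function.Injective (fun i => s(hd i, tl i)) ∧ Sparse hd tl d ∧
      ∀ e ∈ G.edgeSet, ∃ i, s(hd i, tl i) = e := by
  classical
  obtain ⟨h1, h2⟩ := hG
  have hV : 0 < Fintype.card V := by
    by_contra h0
    have h0' : Fintype.card V = 0 := by omega
    rw [Nat.card_eq_fintype_card, h0', mul_zero] at h1
    omega
  obtain ⟨r⟩ := Fintype.card_pos_iff.1 hV
  have hcard : Fintype.card (Wd r d) = Fintype.card G.edgeSet := by
    have h3 : Fintype.card {v : V // v ≠ r} = Fintype.card V - 1 := by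
      rw [Fintype.card_subtype_compl]
      simp
    rw [Fintype.card_prod, h3, Fintype.card_fin]
    rw [Nat.card_eq_fintype_card, ← Nat.card_coe_set_eq, Nat.card_eq_fintype_card] at h1
    obtain ⟨n, hn⟩ : ∃ n, Fintype.card V = n + 1 := ⟨Fintype.card V - 1, by omega⟩
    rw [hn] at h1 ⊢
    simp only [Nat.add_sub_cancel]
    rw [mul_add, mul_one] at h1
    rw [mul_comm]
    omega
  let e : Wd r d ≃ G.edgeSet := Fintype.equivOfCardEq hcard
  let hd : Wd r d → V := fun i => (Quot.out (e i).1).1
  let tl : Wd r d → V := fun i => (Quot.out (e i).1).2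
  have hs : ∀ i, s(hd i, tl i) = (e i).1 := by
    intro i
    exact Quot.out_eq (e i).1
  have hadj : ∀ i, G.Adj (hd i) (tl i) := by
    intro i
    rw [← SimpleGraph.mem_edgeSet, hs]
    exact (e i).2
  refine ⟨r, hd, tl, hadj, ?_, ?_, ?_⟩
  · intro i j hij
    simp only [hs] at hij
    exact e.injective (Subtype.ext hij)
  · intro S hS
    have h3 := h2 ((⊤ : G.Subgraph).induce (S : Set V)) (by simpa using hS)
    rw [SimpleGraph.Subgraph.induce_verts, Set.ncard_coe_finset] at h3
    refine le_trans (Nat.add_le_add_right ?_ d) h3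
    rw [← Set.ncard_coe_finset]
    refine Set.ncard_le_ncard_of_injOn (fun i => s(hd i, tl i)) ?_ ?_ (Set.toFinite _)
    · intro i hi
      simp only [Finset.coe_filter, Finset.mem_univ, true_and, Set.mem_ofPred_eq] at hi
      rw [SimpleGraph.Subgraph.mem_edgeSet]
      simp only [SimpleGraph.Subgraph.induce_adj, SimpleGraph.Subgraph.top_adj]
      exact ⟨by exact_mod_cast hi.1, by exact_mod_cast hi.2, hadj i⟩
    · intro i _ j _ hij
      simp only [hs] at hij
      exact e.injective (Subtype.ext hij)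
  · intro e' he'
    refine ⟨e.symm ⟨e', he'⟩, ?_⟩
    rw [hs]
    simp

theorem rigid_of_det {V : Type*} [Fintype V] [DecidableEq V] (G : SimpleGraph V)
    [Fintype G.edgeSet] {d : ℕ} {q : ℝ≥0∞} [Fact (1 ≤ q)] (hq1 : 1 < q) (hq : q ≠ ⊤)
    {r : V} (hd tl : Wd r d → V) (hadj : ∀ i, G.Adj (hd i) (tl i))
    (hsurj : ∀ e ∈ G.edgeSet, ∃ i, s(hd i, tl i) = e)
    (x : V → Fin d → ℝ) (hx : ∀ i, x (hd i) ≠ x (tl i))
    (hdet : (Mat hd tl (fun i k => |x (hd i) k - x (tl i) k| ^ (q.toReal - 2) *
        (x (hd i) k - x (tl i) k))).det ≠ 0) :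
    IsRigid G (fun v => (WithLp.toLp q (x v) : PiLp q (fun _ : Fin d => ℝ))) := by
  classical
  set p : V → PiLp q (fun _ : Fin d => ℝ) := fun v => WithLp.toLp q (x v) with hp
  have hwp : WellPositioned G p := by
    intro v w hvw
    obtain ⟨i, hi⟩ := hsurj s(v, w) hvw
    have hne : p v ≠ p w := by
      intro h0
      have h1 : x v = x w := by
        have := congrArg WithLp.ofLp h0
        simpa [p] using this
      rw [Sym2.eq_iff] at hi
      rcases hi with ⟨h2, h3⟩ | ⟨h2, h3⟩
      · apply hx i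
        rw [h2, h3, h1]
      · apply hx i
        rw [h2, h3, h1]
    refine ⟨hne, ?_⟩
    obtain ⟨c, hc, L, hL, hL2⟩ := norm_hasFDeriv hq1 hq (p v - p w) (sub_ne_zero.2 hne)
    exact hL.differentiableAt
  refine ⟨hwp, ?_⟩
  intro u hu
  -- per edge consequence
  have hedge : ∀ i, ∑ k, (|x (hd i) k - x (tl i) k| ^ (q.toReal - 2) *
        (x (hd i) k - x (tl i) k)) * (u (hd i) k - u (tl i) k) = 0 := by
    intro i
    have hne : p (hd i) - p (tl i) ≠ 0 := sub_ne_zero.2 (hwp _ _ (hadj i)).1
    -- differentiability of the rigidity map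
    have hdiff : DifferentiableAt ℝ (rigidityMap G (X := PiLp q (fun _ : Fin d => ℝ))) p := by
      rw [differentiableAt_pi]
      rintro ⟨e, he⟩
      induction e with
      | h v w =>
        have h1 := (hwp v w he).2
        have h2 : DifferentiableAt ℝ (fun x : V → PiLp q (fun _ : Fin d => ℝ) => x v - x w) p :=
          (differentiableAt_apply v p).sub (differentiableAt_apply w p)
        exact DifferentiableAt.comp (g := fun z : PiLp q (fun _ : Fin d => ℝ) => ‖z‖) p h1 h2
    obtain ⟨c, hc, L, hL, hL2⟩ := norm_hasFDeriv hq1 hq (p (hd i) - p (tl i)) hne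
    have h3 : HasFDerivAt (fun x : V → PiLp q (fun _ : Fin d => ℝ) => ‖x (hd i) - x (tl i)‖)
        (L.comp ((ContinuousLinearMap.proj (R := ℝ) (φ := fun _ : V =>
            PiLp q (fun _ : Fin d => ℝ)) (hd i)) -
          (ContinuousLinearMap.proj (R := ℝ) (φ := fun _ : V =>
            PiLp q (fun _ : Fin d => ℝ)) (tl i)))) p := by
      have h4 : HasFDerivAt (fun x : V → PiLp q (fun _ : Fin d => ℝ) => x (hd i) - x (tl i))
        ((ContinuousLinearMap.proj (R := ℝ) (φ := fun _ : V =>
            PiLp q (fun _ : Fin d => ℝ)) (hd i)) -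
          (ContinuousLinearMap.proj (R := ℝ) (φ := fun _ : V =>
            PiLp q (fun _ : Fin d => ℝ)) (tl i))) p :=
        (hasFDerivAt_apply (hd i) p).sub (hasFDerivAt_apply (tl i) p)
      exact HasFDerivAt.comp (g := fun z : PiLp q (fun _ : Fin d => ℝ) => ‖z‖) p hL h4
    have h5 := (hasFDerivAt_pi'.1 hdiff.hasFDerivAt) ⟨s(hd i, tl i), hadj i⟩
    have h6 : (fun x : V → PiLp q (fun _ : Fin d => ℝ) =>
        rigidityMap G x ⟨s(hd i, tl i), hadj i⟩) = fun x => ‖x (hd i) - x (tl i)‖ := by
      ext y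
      rfl
    rw [h6] at h5
    have h7 := h5.unique h3
    have h8 : (fderiv ℝ (rigidityMap G) p u) ⟨s(hd i, tl i), hadj i⟩ = 0 := by
      rw [hu]; rfl
    have h9 : L (u (hd i) - u (tl i)) = 0 := by
      have h10 := congrArg (fun T => T u) h7
      simp only [ContinuousLinearMap.comp_apply, ContinuousLinearMap.proj_apply] at h10
      rw [h8] at h10
      rw [h10]
      rfl
    rw [hL2] at h9
    rcases mul_eq_zero.1 h9 with h11 | h11
    · exact absurd h11 hc.ne'
    · exact h11
  have hfin := const_of_det_ne_zero hd tl _ hdet (fun v => (u v : Fin d → ℝ)) hedge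
  intro v w
  have h1 := (hfin v).trans (hfin w).symm
  ext k
  exact congrFun h1 k

end Pool.Agent.Work.MP_3a76b1_co
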