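import Mathlib

/-!
Definitions: (d,d)-tight graphs, the rigidity map in a normed space, rigid placements.
-/

namespace Pool.Agent.Work.MP_3a76b1_co

/-- `G` is (d,d)-tight: it has `d|V| - d` edges and every subgraph `H` with nonempty vertex set
has at most `d|V(H)| - d` edges. -/
def IsTight {V : Type*} (G : SimpleGraph V) (d : ℕ) : Prop :=
  G.edgeSet.ncard + d = d * Nat.card V ∧
    ∀ H : G.Subgraph, H.verts.Nonempty → H.edgeSet.ncard + d ≤ d * H.verts.ncard

section

variable {V : Type*} (G : SimpleGraph V) {X : Type*} [NormedAddCommGroup X] [NormedSpace ℝ X]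

/-- The rigidity map: `x` is sent to the family of edge lengths `‖x v - x w‖`. -/
noncomputable def rigidityMap (x : V → X) : G.edgeSet → ℝ := fun e =>
  Sym2.lift ⟨fun v w => ‖x v - x w‖, fun v w => norm_sub_rev (x v) (x w)⟩ e.1

/-- A placement is well-positioned: for every edge `vw` the points are distinct and the norm is
differentiable at their difference. -/
def WellPositioned (p : V → X) : Prop :=
  ∀ v w, G.Adj v w → p v ≠ p w ∧ DifferentiableAt ℝ (fun z : X => ‖z‖) (p v - p w)

/-- `u` is an infinitesimal flex of `p`: the derivative of the rigidity map at `p` kills `u`. -/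
def IsFlex [Fintype V] [Fintype G.edgeSet] (p u : V → X) : Prop :=
  fderiv ℝ (rigidityMap G) p u = 0

/-- `p` is a rigid placement: it is well-positioned and all its infinitesimal flexes are
constant. -/
def IsRigid [Fintype V] [Fintype G.edgeSet] (p : V → X) : Prop :=
  WellPositioned G p ∧ ∀ u : V → X, IsFlex G p u → ∀ v w, u v = u w

end

end Pool.Agent.Work.MP_3a76b1_co
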