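import Mathlib

/-!
Horn's theorem on unions of linearly independent sets of vectors.
-/

namespace Pool.Agent.Work.MP_3a76b1_co

open Finset Submodule

section Horn

variable {E M K : Type*} [Fintype E] [DecidableEq E] [Field K] [AddCommGroup M] [Module K M]

/-- pairwise disjoint independent sets. -/
def Valid (K : Type*) [Field K] {M : Type*} [AddCommGroup M] [Module K M] (v : E → M) {k : ℕ}
    (F : Fin k → Finset E) : Prop :=
  (∀ i j, i ≠ j → Disjoint (F i) (F j)) ∧ ∀ i, LinearIndepOn K v (F i : Set E)

/-- one exchange step. -/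
def Step (K : Type*) [Field K] {M : Type*} [AddCommGroup M] [Module K M] (v : E → M) {k : ℕ}
    (s t : (Fin k → Finset E) × E) : Prop :=
  ∃ i, t.2 ∈ s.1 i ∧ v s.2 ∉ span K (v '' ((s.1 i).erase t.2 : Finset E)) ∧
    t.1 = Function.update s.1 i (insert s.2 ((s.1 i).erase t.2))

lemma mem_span_inter_aux (v : E → M) (S : Finset E) (hS : LinearIndepOn K v (S : Set E))
    (x : M) (hx : x ∈ span K (v '' (S : Set E))) (R : Set E)
    (h : ∀ f ∈ S, f ∉ R → x ∈ span K (v '' ((S.erase f : Finset E) : Set E))) :
    x ∈ span K (v '' ((S : Set E) ∩ R)) := by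
  classical
  rw [Finsupp.mem_span_image_iff_linearCombination] at hx ⊢
  obtain ⟨l, hl, hlx⟩ := hx
  refine ⟨l, ?_, hlx⟩
  have hl0 := hl
  rw [Finsupp.mem_supported] at hl ⊢
  intro f hf
  have hfS : f ∈ S := by exact_mod_cast hl hf
  refine ⟨hl hf, ?_⟩
  by_contra hfR
  have h1 := h f hfS hfR
  rw [Finsupp.mem_span_image_iff_linearCombination] at h1
  obtain ⟨l', hl', hlx'⟩ := h1
  have hl'' : l' ∈ Finsupp.supported K K (S : Set E) := by
    refine Finsupp.supported_mono ?_ hl'
    intro y hy
    have hy' : y ∈ S.erase f := by exact_mod_cast hy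
    exact_mod_cast Finset.mem_of_mem_erase hy'
  have hinj : l = l' :=
    (linearIndepOn_iffₛ (s := (S : Set E))).1 hS l hl0 l' hl'' (hlx.trans hlx'.symm)
  rw [Finsupp.mem_supported] at hl'
  rw [hinj] at hf
  have := hl' hf
  simp at this

/-- total size. -/
def tsize {k : ℕ} (F : Fin k → Finset E) : ℕ := ∑ i, (F i).card

lemma exists_max (v : E → M) (k : ℕ) :
    ∃ F : Fin k → Finset E, Valid K v F ∧
      ∀ F' : Fin k → Finset E, Valid K v F' → tsize F' ≤ tsize F := by
  classical
  have hne : ((Finset.univ : Finset (Fin k → Finset E)).filter (fun F => Valid K v F)).Nonempty := by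
    refine ⟨fun _ => ∅, ?_⟩
    rw [Finset.mem_filter]
    refine ⟨Finset.mem_univ _, ?_, ?_⟩
    · intro i j _; simp
    · intro i; simp
  obtain ⟨F, hF, hmax⟩ := Finset.exists_max_image _ (fun F => tsize F) hne
  simp only [Finset.mem_filter, Finset.mem_univ, true_and] at hF hmax
  exact ⟨F, hF, hmax⟩

/-- invariant of reachable states -/
def Good (K : Type*) [Field K] {M : Type*} [AddCommGroup M] [Module K M] (v : E → M) {k : ℕ}
    (N : ℕ) (s : (Fin k → Finset E) × E) : Prop :=
  Valid K v s.1 ∧ tsize s.1 = N ∧ ∀ i, s.2 ∉ s.1 i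

lemma tsize_update {k : ℕ} (F : Fin k → Finset E) (i : Fin k) (A : Finset E) :
    tsize (Function.update F i A) + (F i).card = tsize F + A.card := by
  unfold tsize
  have h1 : ∑ j, (Function.update F i A j).card = A.card + ∑ j ∈ Finset.univ.erase i, (F j).card := by
    rw [← Finset.add_sum_erase _ _ (Finset.mem_univ i)]
    congr 1
    · simp
    · apply Finset.sum_congr rfl
      intro j hj
      rw [Function.update_of_ne (Finset.ne_of_mem_erase hj)]
  have h2 : ∑ j, (F j).card = (F i).card + ∑ j ∈ Finset.univ.erase i, (F j).card := by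
    rw [← Finset.add_sum_erase _ _ (Finset.mem_univ i)]
  omega

lemma Step.good {v : E → M} {k N : ℕ} {s t : (Fin k → Finset E) × E}
    (h : Step K v s t) (hs : Good K v N s) : Good K v N t := by
  obtain ⟨i, hf, hsp, ht⟩ := h
  obtain ⟨⟨hd, hi⟩, hN, hn⟩ := hs
  obtain ⟨F, e⟩ := s
  obtain ⟨F', f⟩ := t
  simp only at *
  subst ht
  have hef : e ∉ (F i).erase f := fun h => hn i (Finset.mem_of_mem_erase h)
  refine ⟨⟨?_, ?_⟩, ?_, ?_⟩ <;> dsimp only
  · have key : ∀ j, j ≠ i → Disjoint (insert e ((F i).erase f)) (F j) := by
      intro j hj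
      rw [Finset.disjoint_insert_left]
      exact ⟨hn j, (hd i j hj.symm).mono_left (Finset.erase_subset _ _)⟩
    intro a b hab
    by_cases ha : a = i
    · subst ha
      rw [Function.update_self, Function.update_of_ne hab.symm]
      exact key b hab.symm
    · by_cases hb : b = i
      · subst hb
        rw [Function.update_self, Function.update_of_ne ha]
        exact (key a ha).symm
      · rw [Function.update_of_ne ha, Function.update_of_ne hb]
        exact hd a b hab
  · intro a
    by_cases ha : a = i
    · subst ha
      rw [Function.update_self, Finset.coe_insert]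
      exact ((hi a).mono (by simp)).insert hsp
    · rw [Function.update_of_ne ha]
      exact hi a
  · have h1 := tsize_update F i (insert e ((F i).erase f))
    rw [Finset.card_insert_of_notMem hef, Finset.card_erase_of_mem hf] at h1
    have : 0 < (F i).card := Finset.card_pos.2 ⟨f, hf⟩
    omega
  · intro a
    by_cases ha : a = i
    · subst ha
      rw [Function.update_self]
      simp only [Finset.mem_insert, Finset.mem_erase, not_or, not_and]
      exact ⟨fun h => hn a (h ▸ hf), fun h => absurd rfl h⟩
    · rw [Function.update_of_ne ha]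
      exact fun h => (Finset.disjoint_left.1 (hd a i ha)) h hf

lemma Good.mem_span {v : E → M} {k N : ℕ} {s : (Fin k → Finset E) × E}
    (hs : Good K v N s) (hmax : ∀ F' : Fin k → Finset E, Valid K v F' → tsize F' ≤ N)
    (i : Fin k) : v s.2 ∈ span K (v '' (s.1 i : Set E)) := by
  obtain ⟨⟨hd, hi⟩, hN, hn⟩ := hs
  obtain ⟨F, e⟩ := s
  simp only at *
  by_contra hsp
  have hv : Valid K v (Function.update F i (insert e (F i))) := by
    refine ⟨?_, ?_⟩
    · have key : ∀ j, j ≠ i → Disjoint (insert e (F i)) (F j) := by
        intro j hj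
        rw [Finset.disjoint_insert_left]
        exact ⟨hn j, (hd i j hj.symm)⟩
      intro a b hab
      by_cases ha : a = i
      · subst ha
        rw [Function.update_self, Function.update_of_ne hab.symm]
        exact key b hab.symm
      · by_cases hb : b = i
        · subst hb
          rw [Function.update_self, Function.update_of_ne ha]
          exact (key a ha).symm
        · rw [Function.update_of_ne ha, Function.update_of_ne hb]
          exact hd a b hab
    · intro a
      by_cases ha : a = i
      · subst ha
        rw [Function.update_self, Finset.coe_insert]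
        exact (hi a).insert hsp
      · rw [Function.update_of_ne ha]
        exact hi a
  have h1 := hmax _ hv
  have h2 := tsize_update F i (insert e (F i))
  rw [Finset.card_insert_of_notMem (hn i)] at h2
  omega

/-- **Horn's theorem**. -/
theorem horn [FiniteDimensional K M] (v : E → M) (k : ℕ)
    (h : ∀ R : Finset E, R.card ≤ k * Module.finrank K (span K (v '' (R : Set E)))) :
    ∃ κ : E → Fin k, ∀ i, LinearIndepOn K v {e | κ e = i} := by
  classical
  obtain ⟨F0, hF0, hmax⟩ := exists_max (K := K) v k
  by_cases hcov : ∀ e, ∃ i, e ∈ F0 i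
  · choose κ hκ using hcov
    refine ⟨κ, fun i => (hF0.2 i).mono ?_⟩
    intro e he
    simp only [Set.mem_ofPred_eq] at he
    subst he
    exact_mod_cast hκ e
  exfalso
  push Not at hcov
  obtain ⟨e0, he0⟩ := hcov
  have hg0 : Good K v (tsize F0) (F0, e0) := ⟨hF0, rfl, he0⟩
  set Rch : (Fin k → Finset E) × E → Prop :=
    fun s => Relation.ReflTransGen (Step K v) (F0, e0) s with hRch
  set R : Set E := {e | ∃ F, Rch (F, e)} with hR
  have hgood : ∀ s, Rch s → Good K v (tsize F0) s := by
    intro s hs
    induction hs with
    | refl => exact hg0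
    | tail _ hst ih => exact hst.good ih
  have hspan : ∀ s, Rch s → ∀ i, v s.2 ∈ span K (v '' ((s.1 i : Set E) ∩ R)) := by
    intro s hs i
    have hg := hgood s hs
    refine mem_span_inter_aux v (s.1 i) (hg.1.2 i) _ (hg.mem_span hmax i) R ?_
    intro f hf hfR
    by_contra hns
    apply hfR
    exact ⟨Function.update s.1 i (insert s.2 ((s.1 i).erase f)),
      Relation.ReflTransGen.tail hs ⟨i, hf, hns, rfl⟩⟩
  have hinv : ∀ s, Rch s → ∀ i, span K (v '' ((s.1 i : Set E) ∩ R)) =
      span K (v '' ((F0 i : Set E) ∩ R)) := by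
    intro s hs
    induction hs with
    | refl => intro i; rfl
    | @tail s t hs hst ih =>
      intro i
      rw [← ih i]
      have hgs := hgood s hs
      have hRt : Rch t := Relation.ReflTransGen.tail hs hst
      have hgt := hgood t hRt
      have heR : s.2 ∈ R := ⟨s.1, hs⟩
      have hfR : t.2 ∈ R := ⟨t.1, hRt⟩
      have hsp := hspan s hs
      obtain ⟨a, hf, hns, ht⟩ := hst
      by_cases hia : i = a
      · subst hia
        have hti : t.1 i = insert s.2 ((s.1 i).erase t.2) := by rw [ht, Function.update_self]
        have hle : span K (v '' ((t.1 i : Set E) ∩ R)) ≤ span K (v '' ((s.1 i : Set E) ∩ R)) := by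
          rw [span_le]
          rintro _ ⟨y, ⟨hy, hyR⟩, rfl⟩
          rw [hti] at hy
          simp only [Finset.coe_insert, Finset.coe_erase, Set.mem_insert_iff, Set.mem_sdiff,
            Finset.mem_coe, Set.mem_singleton_iff] at hy
          rcases hy with rfl | ⟨hy, -⟩
          · exact hsp i
          · exact subset_span ⟨y, ⟨by exact_mod_cast hy, hyR⟩, rfl⟩
        refine Submodule.eq_of_le_of_finrank_eq hle ?_
        have hcard : ∀ F : Finset E, LinearIndepOn K v (F : Set E) →
            Module.finrank K (span K (v '' ((F : Set E) ∩ R))) = (F.filter (· ∈ R)).card := by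
          intro F hF
          have h1 : LinearIndepOn K v ((F.filter (· ∈ R) : Finset E) : Set E) :=
            hF.mono (by exact_mod_cast Finset.filter_subset _ _)
          have h2 : ((F : Set E) ∩ R) = ((F.filter (· ∈ R) : Finset E) : Set E) := by
            ext; simp
          rw [h2, Set.image_eq_range]
          have := finrank_span_eq_card (R := K) h1.linearIndependent_restrict
          rw [show (Set.range fun x : ((F.filter (· ∈ R) : Finset E) : Set E) => v ↑x) =
            Set.range ((((F.filter (· ∈ R) : Finset E) : Set E)).domRestrict v) from rfl, this]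
          simp
        rw [hcard _ (hgt.1.2 i), hcard _ (hgs.1.2 i), hti]
        have hne : s.2 ∉ (s.1 i).erase t.2 := fun h => hgs.2.2 i (Finset.mem_of_mem_erase h)
        rw [Finset.filter_insert, if_pos heR, Finset.card_insert_of_notMem (by
          simp only [Finset.mem_filter, not_and]; intro h; exact absurd h hne)]
        rw [Finset.filter_erase, Finset.card_erase_of_mem (by simp [hf, hfR])]
        have : 0 < ((s.1 i).filter (· ∈ R)).card :=
          Finset.card_pos.2 ⟨t.2, by simp [hf, hfR]⟩
        omega
      · rw [ht, Function.update_of_ne hia]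
  -- final count
  set R' : Finset E := Finset.univ.filter (· ∈ R) with hR'
  have hR'c : (R' : Set E) = R := by ext; simp [hR']
  have hle : ∀ i, Module.finrank K (span K (v '' (R' : Set E))) ≤ ((F0 i).filter (· ∈ R)).card := by
    intro i
    have h1 : span K (v '' (R' : Set E)) ≤ span K (v '' (((F0 i).filter (· ∈ R) : Finset E) : Set E)) := by
      rw [span_le, hR'c]
      rintro _ ⟨r, ⟨F, hF⟩, rfl⟩
      have h2 := hspan _ hF i
      rw [hinv _ hF i] at h2
      have h3 : ((F0 i : Set E) ∩ R) = (((F0 i).filter (· ∈ R) : Finset E) : Set E) := by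
        ext; simp
      rw [← h3]
      exact h2
    refine (Submodule.finrank_mono h1).trans ?_
    rw [← Finset.coe_image]
    exact (finrank_span_finset_le_card _).trans Finset.card_image_le
  have hsum : k * Module.finrank K (span K (v '' (R' : Set E))) ≤
      ∑ i, ((F0 i).filter (· ∈ R)).card := by
    calc k * Module.finrank K (span K (v '' (R' : Set E)))
        = ∑ _i : Fin k, Module.finrank K (span K (v '' (R' : Set E))) := by simp
      _ ≤ _ := Finset.sum_le_sum fun i _ => hle i
  have hdis : ∑ i, ((F0 i).filter (· ∈ R)).card =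
      (Finset.univ.biUnion fun i => (F0 i).filter (· ∈ R)).card := by
    rw [Finset.card_biUnion]
    intro a _ b _ hab
    exact (hF0.1 a b hab).mono (Finset.filter_subset _ _) (Finset.filter_subset _ _)
  have hsub : (Finset.univ.biUnion fun i => (F0 i).filter (· ∈ R)) ⊆ R'.erase e0 := by
    intro y hy
    simp only [Finset.mem_biUnion, Finset.mem_univ, true_and, Finset.mem_filter] at hy
    obtain ⟨i, hyi, hyR⟩ := hy
    rw [Finset.mem_erase]
    exact ⟨fun h => he0 i (h ▸ hyi), by simp [hR', hyR]⟩
  have he0R : e0 ∈ R' := by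
    simp only [hR', Finset.mem_filter, Finset.mem_univ, true_and]
    exact ⟨F0, Relation.ReflTransGen.refl⟩
  have h5 := Finset.card_le_card hsub
  rw [Finset.card_erase_of_mem he0R] at h5
  have h6 := h R'
  have h7 : 0 < R'.card := Finset.card_pos.2 ⟨e0, he0R⟩
  omega

end Horn

end Pool.Agent.Work.MP_3a76b1_co
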