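import Mathlib

/-!
Linear independence of the products of a-th powers of shifted variables, a large.
-/

namespace Pool.Agent.Work.MP_3a76b1_co

open Finset Polynomial

/-- two polynomials with vanishing Wronskian-like bracket are proportional. -/
lemma prop_of_bracket_zero (P Q : ℝ[X]) (hQ : Q ≠ 0)
    (h : derivative P * Q = P * derivative Q) : ∃ c : ℝ, P = C c * Q := by
  classical
  -- strong induction on the degree of P
  suffices H : ∀ n : ℕ, ∀ P : ℝ[X], P.natDegree ≤ n → derivative P * Q = P * derivative Q →
      ∃ c : ℝ, P = C c * Q from H P.natDegree P le_rfl h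
  intro n
  induction n using Nat.strong_induction_on with
  | _ n ih =>
    intro P hPn hP
    by_cases hP0 : P = 0
    · exact ⟨0, by simp [hP0]⟩
    -- degrees agree
    have hdeg : P.natDegree = Q.natDegree := by
      have h1 : (derivative P * Q).coeff (P.natDegree + Q.natDegree - 1) =
          (P * derivative Q).coeff (P.natDegree + Q.natDegree - 1) := by rw [hP]
      by_contra hne
      rcases Nat.eq_zero_or_pos P.natDegree with hp0 | hpp
      · have hPd : derivative P = 0 := derivative_of_natDegree_zero hp0
        rw [hPd, zero_mul] at hP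
        rcases mul_eq_zero.1 hP.symm with h2 | h2
        · exact hP0 h2
        · have := derivative_eq_zero.1 h2
          omega
      · rcases Nat.eq_zero_or_pos Q.natDegree with hq0 | hqp
        · have hQd : derivative Q = 0 := derivative_of_natDegree_zero hq0
          rw [hQd, mul_zero] at hP
          rcases mul_eq_zero.1 hP with h2 | h2
          · have := derivative_eq_zero.1 h2
            omega
          · exact hQ h2
        · have e1 : P.natDegree + Q.natDegree - 1 = (P.natDegree - 1) + Q.natDegree := by omega
          have e2 : P.natDegree + Q.natDegree - 1 = P.natDegree + (Q.natDegree - 1) := by omega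
          have h3 : (derivative P * Q).coeff (P.natDegree + Q.natDegree - 1) =
              (derivative P).coeff (P.natDegree - 1) * Q.coeff Q.natDegree := by
            rw [e1]
            exact coeff_mul_add_eq_of_natDegree_le (natDegree_derivative_le P) le_rfl
          have h4 : (P * derivative Q).coeff (P.natDegree + Q.natDegree - 1) =
              P.coeff P.natDegree * (derivative Q).coeff (Q.natDegree - 1) := by
            rw [e2]
            exact coeff_mul_add_eq_of_natDegree_le le_rfl (natDegree_derivative_le Q)
          rw [h3, h4, coeff_derivative, coeff_derivative] at h1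
          have e3 : P.natDegree - 1 + 1 = P.natDegree := by omega
          have e4 : Q.natDegree - 1 + 1 = Q.natDegree := by omega
          rw [e3, e4] at h1
          have hlp : P.coeff P.natDegree ≠ 0 := by
            rw [coeff_natDegree]; exact leadingCoeff_ne_zero.2 hP0
          have hlq : Q.coeff Q.natDegree ≠ 0 := by
            rw [coeff_natDegree]; exact leadingCoeff_ne_zero.2 hQ
          have h5 : ((P.natDegree - 1 : ℕ) : ℝ) + 1 = ((Q.natDegree - 1 : ℕ) : ℝ) + 1 := by
            have h6 : P.coeff P.natDegree * Q.coeff Q.natDegree *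
              ((((P.natDegree - 1 : ℕ) : ℝ) + 1) - (((Q.natDegree - 1 : ℕ) : ℝ) + 1)) = 0 := by
              linear_combination h1
            rcases mul_eq_zero.1 h6 with h7 | h7
            · exact absurd h7 (mul_ne_zero hlp hlq)
            · linarith
          have h6 : (P.natDegree - 1 : ℕ) = Q.natDegree - 1 := by
            have : ((P.natDegree - 1 : ℕ) : ℝ) = ((Q.natDegree - 1 : ℕ) : ℝ) := by linarith
            exact_mod_cast this
          omega
    -- subtract the leading part
    set c := P.leadingCoeff / Q.leadingCoeff with hc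
    set R := P - C c * Q with hR
    have hRb : derivative R * Q = R * derivative Q := by
      rw [hR]
      simp only [derivative_sub, derivative_mul, derivative_C, zero_mul, zero_add]
      linear_combination hP
    by_cases hR0 : R = 0
    · exact ⟨c, by rw [← sub_eq_zero, ← hR, hR0]⟩
    · have hlq : Q.leadingCoeff ≠ 0 := leadingCoeff_ne_zero.2 hQ
      have hlp : P.leadingCoeff ≠ 0 := leadingCoeff_ne_zero.2 hP0
      have hc0 : c ≠ 0 := div_ne_zero hlp hlq
      have hd1 : P.degree = (C c * Q).degree := by
        rw [degree_C_mul hc0, degree_eq_natDegree hP0, degree_eq_natDegree hQ, hdeg]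
      have hlt : R.degree < P.degree := by
        apply degree_sub_lt_left hd1 hP0
        rw [leadingCoeff_mul, leadingCoeff_C, hc]
        field_simp
      have hlt2 : R.natDegree < P.natDegree := natDegree_lt_natDegree hR0 hlt
      obtain ⟨c', hc'⟩ := ih R.natDegree (lt_of_lt_of_le hlt2 hPn) R le_rfl hRb
      refine ⟨c + c', ?_⟩
      have : P = R + C c * Q := by rw [hR]; ring
      rw [this, hc', C_add]
      ring

lemma generic_order : ∀ (D : ℕ) (W : Submodule ℝ ℝ[X]) [FiniteDimensional ℝ W],
    Module.finrank ℝ W = D → ∃ Z : Finset ℝ, ∀ y, y ∉ Z → ∀ P ∈ W, (X - C y) ^ D ∣ P → P = 0 := by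
  intro D
  induction D with
  | zero =>
    intro W _ hW
    refine ⟨∅, fun y _ P hP _ => ?_⟩
    have : W = ⊥ := Submodule.finrank_eq_zero.1 hW
    rw [this] at hP
    simpa using hP
  | succ D ih =>
    intro W _ hW
    -- pick a nonzero element
    have hne : W ≠ ⊥ := by
      intro h
      rw [h, finrank_bot] at hW
      omega
    obtain ⟨P1, hP1, hP10⟩ := W.exists_mem_ne_zero_of_ne_bot hne
    let φ : ℝ[X] →ₗ[ℝ] ℝ[X] :=
      { toFun := fun P => derivative P * P1 - P * derivative P1
        map_add' := by intro P Q; simp only [derivative_add]; ring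
        map_smul' := by
          intro c P
          simp only [derivative_smul, RingHom.id_apply, smul_mul_assoc, smul_sub] }
    have hφ : ∀ P, φ P = derivative P * P1 - P * derivative P1 := fun P => rfl
    let W' := W.map φ
    have hker : ∀ P, φ P = 0 → ∃ c : ℝ, P = C c * P1 := by
      intro P hP
      exact prop_of_bracket_zero P P1 hP10 (by rw [hφ] at hP; exact sub_eq_zero.1 hP)
    have hdim : Module.finrank ℝ W' = D := by
      let ψ : W →ₗ[ℝ] ℝ[X] := φ.comp W.subtype
      have h1 : LinearMap.range ψ = W' := by
        rw [LinearMap.range_comp, Submodule.range_subtype]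
      have h2 := LinearMap.finrank_range_add_finrank_ker ψ
      rw [h1, hW] at h2
      have h3 : Module.finrank ℝ (LinearMap.ker ψ) = 1 := by
        have hk1 : (⟨P1, hP1⟩ : W) ∈ LinearMap.ker ψ := by
          rw [LinearMap.mem_ker]
          change φ P1 = 0
          rw [hφ]; ring
        refine finrank_eq_one (⟨⟨P1, hP1⟩, hk1⟩ : LinearMap.ker ψ) ?_ ?_
        · intro h
          apply hP10
          have := congrArg (fun z : LinearMap.ker ψ => ((z : W) : ℝ[X])) h
          simpa using this
        · rintro ⟨⟨P, hP⟩, hPk⟩
          rw [LinearMap.mem_ker] at hPk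
          obtain ⟨c, hc⟩ := hker P hPk
          refine ⟨c, ?_⟩
          apply Subtype.ext
          apply Subtype.ext
          change c • P1 = P
          rw [hc, smul_eq_C_mul]
      omega
    obtain ⟨Z, hZ⟩ := ih W' hdim
    refine ⟨Z ∪ P1.roots.toFinset, ?_⟩
    intro y hy P hP hdvd
    rw [Finset.mem_union, not_or] at hy
    have hy1 : P1.eval y ≠ 0 := by
      intro h
      apply hy.2
      rw [Multiset.mem_toFinset, mem_roots hP10]
      exact h
    have hd1 : (X - C y) ^ D ∣ derivative P := by
      have := pow_sub_one_dvd_derivative_of_pow_dvd hdvd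
      simpa using this
    have hd2 : (X - C y) ^ D ∣ P := dvd_trans (pow_dvd_pow _ (Nat.le_succ D)) hdvd
    have hd3 : (X - C y) ^ D ∣ φ P := by
      rw [hφ]
      exact dvd_sub (Dvd.dvd.mul_right hd1 _) (Dvd.dvd.mul_right hd2 _)
    have h0 : φ P = 0 := hZ y hy.1 (φ P) (Submodule.mem_map_of_mem hP) hd3
    obtain ⟨c, hc⟩ := hker P h0
    have hd4 : (X - C y) ∣ P := dvd_trans (dvd_pow_self _ (Nat.succ_ne_zero D)) hdvd
    rw [dvd_iff_isRoot, hc, IsRoot.def, eval_mul, eval_C] at hd4
    rcases mul_eq_zero.1 hd4 with h5 | h5
    · rw [hc, h5]; simp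
    · exact absurd h5 hy1

/-- the product of a-th powers over a set of points. -/
noncomputable def gp (a : ℕ) (A : Finset ℝ) : ℝ[X] := ∏ s ∈ A, (X - C s) ^ a

theorem exists_indep (a : ℕ) : ∀ N : ℕ, 2 ^ (N - 1) ≤ a → ∃ U : Finset ℝ, U.card = N ∧
    ∀ c : Finset ℝ → ℝ, ∑ A ∈ U.powerset, c A • gp a A = 0 → ∀ A ∈ U.powerset, c A = 0 := by
  classical
  intro N
  induction N with
  | zero =>
    intro _
    refine ⟨∅, rfl, ?_⟩
    intro c hc A hA
    simp only [Finset.powerset_empty, Finset.sum_singleton, gp, Finset.prod_empty,
      Finset.mem_singleton] at hc hA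
    subst hA
    have := congrArg (fun p : ℝ[X] => p.eval 0) hc
    simpa using this
  | succ N ih =>
    intro ha
    have ha' : 2 ^ (N - 1) ≤ a := le_trans (Nat.pow_le_pow_right (by norm_num) (by omega)) ha
    obtain ⟨U, hU, hind⟩ := ih ha'
    let W : Submodule ℝ ℝ[X] := Submodule.span ℝ (Set.range (fun A : U.powerset => gp a A))
    have hWfin : FiniteDimensional ℝ W := FiniteDimensional.span_of_finite ℝ (Set.finite_range _)
    have hWdim : Module.finrank ℝ W ≤ a := by
      refine le_trans (finrank_range_le_card _) ?_
      rw [Fintype.card_coe, Finset.card_powerset, hU]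
      simpa using ha
    obtain ⟨Z, hZ⟩ := generic_order (Module.finrank ℝ W) W rfl
    obtain ⟨y, hy⟩ := Infinite.exists_notMem_finset (Z ∪ U)
    rw [Finset.mem_union, not_or] at hy
    have hgen : ∀ P ∈ W, (X - C y) ^ a ∣ P → P = 0 := by
      intro P hP hd
      exact hZ y hy.1 P hP (dvd_trans (pow_dvd_pow _ hWdim) hd)
    have hmem : ∀ c : Finset ℝ → ℝ, ∑ A ∈ U.powerset, c A • gp a A ∈ W := by
      intro c
      refine Submodule.sum_mem _ (fun A hA => Submodule.smul_mem _ _ ?_)
      exact Submodule.subset_span ⟨⟨A, hA⟩, rfl⟩
    refine ⟨insert y U, by rw [Finset.card_insert_of_notMem hy.2, hU], ?_⟩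
    intro c hc
    rw [Finset.sum_powerset_insert hy.2] at hc
    have hB : ∑ A ∈ U.powerset, c (insert y A) • gp a (insert y A) =
        (X - C y) ^ a * ∑ A ∈ U.powerset, c (insert y A) • gp a A := by
      rw [Finset.mul_sum]
      refine Finset.sum_congr rfl (fun A hA => ?_)
      have hyA : y ∉ A := fun h => hy.2 (Finset.mem_powerset.1 hA h)
      rw [gp, Finset.prod_insert hyA, ← gp, mul_smul_comm]
    rw [hB] at hc
    have hP0 : ∑ A ∈ U.powerset, c A • gp a A = 0 := by
      apply hgen _ (hmem c)
      refine ⟨-∑ A ∈ U.powerset, c (insert y A) • gp a A, ?_⟩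
      linear_combination hc
    have hQ0 : ∑ A ∈ U.powerset, c (insert y A) • gp a A = 0 := by
      rw [hP0, zero_add] at hc
      rcases mul_eq_zero.1 hc with h1 | h1
      · exact absurd h1 (pow_ne_zero _ (X_sub_C_ne_zero y))
      · exact h1
    have h1 := hind c hP0
    have h2 := hind (fun A => c (insert y A)) hQ0
    intro A hA
    by_cases hyA : y ∈ A
    · have := h2 (A.erase y) (by
        rw [Finset.mem_powerset] at hA ⊢
        intro s hs
        have hs1 := hA (Finset.mem_of_mem_erase hs)
        rcases Finset.mem_insert.1 hs1 with h3 | h3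
        · exact absurd h3 (Finset.ne_of_mem_erase hs)
        · exact h3)
      simpa [Finset.insert_erase hyA] using this
    · apply h1
      rw [Finset.mem_powerset] at hA ⊢
      intro s hs
      rcases Finset.mem_insert.1 (hA hs) with h3 | h3
      · exact absurd (h3 ▸ hs) hyA
      · exact h3

end Pool.Agent.Work.MP_3a76b1_co
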