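import Pool.Agent.Work.MP_3a76b1_co.Horn

/-!
Nash-Williams style decomposition of sparse families of edges into linearly independent
families of incidence vectors.
-/

namespace Pool.Agent.Work.MP_3a76b1_co

open Finset Submodule

section NW

variable {V E : Type*} [Fintype V] [DecidableEq V] [Fintype E] [DecidableEq E]

/-- signed incidence vector of an edge. -/
def inc (hd tl : E → V) (e : E) : V → ℝ := Pi.single (hd e) 1 - Pi.single (tl e) 1

/-- the sparsity count for a family of edges given by heads and tails. -/
def Sparse (hd tl : E → V) (d : ℕ) : Prop :=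
  ∀ S : Finset V, S.Nonempty →
    (univ.filter (fun e => hd e ∈ S ∧ tl e ∈ S)).card + d ≤ d * S.card

lemma rank_bound (hd tl : E → V) (d : ℕ) (h : Sparse hd tl d) (R : Finset E) :
    R.card ≤ d * Module.finrank ℝ (span ℝ (inc hd tl '' (R : Set E))) := by
  classical
  set W := span ℝ (inc hd tl '' (R : Set E)) with hW
  let st : Setoid V :=
    { r := fun u w => (Pi.single u 1 - Pi.single w 1 : V → ℝ) ∈ W
      iseqv :=
        { refl := fun u => by simp
          symm := fun {u w} huw => by
            have := W.neg_mem huw
            rwa [neg_sub] at this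
          trans := fun {u w x} huw hwx => by
            have := W.add_mem huw hwx
            rwa [sub_add_sub_cancel] at this } }
  have hrel : ∀ e ∈ R, (Quotient.mk st (hd e)) = Quotient.mk st (tl e) := by
    intro e he
    apply Quotient.sound
    change (Pi.single (hd e) 1 - Pi.single (tl e) 1 : V → ℝ) ∈ W
    exact subset_span ⟨e, by exact_mod_cast he, rfl⟩
  have hq : Module.finrank ℝ ((V → ℝ) ⧸ W) ≤ Fintype.card (Quotient st) := by
    let g : Quotient st → ((V → ℝ) ⧸ W) :=
      Quotient.lift (fun u => W.mkQ (Pi.single u 1)) (by
        intro u w huw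
        change (Pi.single u 1 - Pi.single w 1 : V → ℝ) ∈ W at huw
        simp only [mkQ_apply]
        rw [Submodule.Quotient.eq]
        exact huw)
    have hspan : span ℝ (Set.range g) = ⊤ := by
      rw [eq_top_iff]
      intro x _
      obtain ⟨y, rfl⟩ := W.mkQ_surjective x
      have hy : y = ∑ u, y u • (Pi.single u (1:ℝ) : V → ℝ) := by
        ext v
        simp [Finset.sum_apply, Pi.single_apply]
      rw [hy, map_sum]
      refine sum_mem ?_
      intro u _
      rw [map_smul]
      refine smul_mem _ _ (subset_span ⟨Quotient.mk st u, rfl⟩)
    have := finrank_range_le_card (R := ℝ) g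
    rw [Set.finrank, hspan, finrank_top] at this
    exact this
  have hquot := Submodule.finrank_quotient_add_finrank W
  rw [Module.finrank_pi] at hquot
  -- count
  have hcount : R.card = ∑ c : Quotient st,
      (R.filter (fun e => Quotient.mk st (hd e) = c)).card :=
    Finset.card_eq_sum_card_fiberwise (f := fun e => Quotient.mk st (hd e)) (t := univ)
      (fun _ _ => by simp)
  have hV : Fintype.card V = ∑ c : Quotient st,
      (univ.filter (fun u => Quotient.mk st u = c)).card := by
    rw [← Finset.card_univ]
    exact Finset.card_eq_sum_card_fiberwise (f := fun u => Quotient.mk st u) (t := univ)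
      (fun _ _ => by simp)
  have hle : ∀ c : Quotient st, (R.filter (fun e => Quotient.mk st (hd e) = c)).card + d ≤
      d * (univ.filter (fun u => Quotient.mk st u = c)).card := by
    intro c
    refine le_trans ?_ (h (univ.filter (fun u => Quotient.mk st u = c)) ?_)
    · refine Nat.add_le_add_right (Finset.card_le_card ?_) d
      intro e he
      simp only [Finset.mem_filter, Finset.mem_univ, true_and] at he ⊢
      exact ⟨he.2, by rw [← hrel e he.1]; exact he.2⟩
    · obtain ⟨u, hu⟩ := Quotient.exists_rep c
      exact ⟨u, by simp [hu]⟩
  have hsum : R.card + Fintype.card (Quotient st) * d ≤ d * Fintype.card V := by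
    rw [hcount, hV, Finset.mul_sum]
    have := Finset.sum_le_sum (s := (univ : Finset (Quotient st))) (fun c _ => hle c)
    rw [Finset.sum_add_distrib, Finset.sum_const, Finset.card_univ, smul_eq_mul] at this
    exact this
  have h3 : Fintype.card V ≤ Fintype.card (Quotient st) + Module.finrank ℝ W := by omega
  have h4 : d * Fintype.card V ≤ d * Fintype.card (Quotient st) + d * Module.finrank ℝ W := by
    rw [← mul_add]
    exact Nat.mul_le_mul_left d h3
  rw [mul_comm (Fintype.card (Quotient st)) d] at hsum
  omega

theorem nw (hd tl : E → V) (d : ℕ) (h : Sparse hd tl d) :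
    ∃ κ : E → Fin d, ∀ i, LinearIndepOn ℝ (inc hd tl) {e | κ e = i} :=
  horn (inc hd tl) d (fun R => rank_bound hd tl d h R)

end NW

end Pool.Agent.Work.MP_3a76b1_co
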