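import Mathlib

/-!
Linear independence of the products of shifted non-integer powers in one variable.
-/

namespace Pool.Agent.Work.MP_3a76b1_co

open Finset Filter Topology

lemma analyticAt_shift_rpow (α s t : ℝ) (h : s < t) :
    AnalyticAt ℝ (fun t : ℝ => (t - s) ^ α) t := by
  have h1 : AnalyticAt ℝ (fun t : ℝ => Real.exp (Real.log (t - s) * α)) t := by
    apply AnalyticAt.rexp'
    apply AnalyticAt.mul _ analyticAt_const
    exact AnalyticAt.comp' (analyticAt_log (by linarith)) (analyticAt_id.sub analyticAt_const)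
  refine h1.congr ?_
  have : ∀ᶠ x in 𝓝 t, s < x := lt_mem_nhds h
  filter_upwards [this] with x hx
  rw [Real.rpow_def_of_pos (by linarith)]

lemma analyticAt_sum_prod (α : ℝ) (U : Finset ℝ) (c : Finset ℝ → ℝ) (t : ℝ)
    (h : ∀ s ∈ U, s < t) :
    AnalyticAt ℝ (fun t : ℝ => ∑ A ∈ U.powerset, c A * ∏ s ∈ A, (t - s) ^ α) t := by
  apply Finset.analyticAt_fun_sum
  intro A hA
  apply AnalyticAt.mul analyticAt_const
  apply Finset.analyticAt_fun_prod
  intro s hs
  exact analyticAt_shift_rpow α s t (h s (Finset.mem_powerset.1 hA hs))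

lemma local_zero (α : ℝ) (hα : ∀ n : ℤ, α ≠ n) (s : ℝ) (A B : ℝ → ℝ)
    (hA : AnalyticAt ℝ A s) (hB : AnalyticAt ℝ B s)
    (h : ∀ᶠ t in 𝓝[>] s, A t + (t - s) ^ α * B t = 0) : ∀ᶠ t in 𝓝 s, B t = 0 := by
  by_contra hB0
  obtain ⟨m, B1, hB1, hB1s, hBeq⟩ := hB.exists_eventuallyEq_pow_smul_nonzero_iff.2 hB0
  have hgt : ∀ᶠ t in 𝓝[>] s, s < t := eventually_mem_nhdsWithin
  have hle : 𝓝[>] s ≤ 𝓝 s := nhdsWithin_le_nhds
  by_cases hA0 : ∀ᶠ t in 𝓝 s, A t = 0
  · have hB1ne : ∀ᶠ t in 𝓝 s, B1 t ≠ 0 := hB1.continuousAt.eventually_ne hB1s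
    have : ∀ᶠ t in 𝓝[>] s, False := by
      filter_upwards [h, hgt, hle hBeq, hle hA0, hle hB1ne] with t h1 h2 h3 h4 h5
      rw [h4, zero_add, h3, smul_eq_mul] at h1
      have h6 : (0:ℝ) < t - s := by linarith
      have h7 := Real.rpow_pos_of_pos h6 α
      have h8 := pow_pos h6 m
      rcases mul_eq_zero.1 h1 with h9 | h9
      · exact h7.ne' h9
      · rcases mul_eq_zero.1 h9 with h10 | h10
        · exact h8.ne' h10
        · exact h5 h10
    exact (this.exists).choose_spec
  · obtain ⟨n, A1, hA1, hA1s, hAeq⟩ := hA.exists_eventuallyEq_pow_smul_nonzero_iff.2 hA0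
    have hρ : α + m - n ≠ 0 := by
      intro h0
      apply hα (n - m)
      push_cast
      linarith
    have hcomp : ∀ p : ℝ, 0 < p → Tendsto (fun t : ℝ => (t - s) ^ p) (𝓝[>] s) (𝓝 0) := by
      intro p hp
      have h1 : Continuous (fun t : ℝ => (t - s) ^ p) :=
        (Real.continuous_rpow_const hp.le).comp (continuous_id.sub continuous_const)
      have h2 := h1.tendsto s
      simp only [sub_self] at h2
      rw [Real.zero_rpow hp.ne'] at h2
      exact h2.mono_left hle
    have hTA : Tendsto A1 (𝓝[>] s) (𝓝 (A1 s)) := hA1.continuousAt.tendsto.mono_left hle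
    have hTB : Tendsto B1 (𝓝[>] s) (𝓝 (B1 s)) := hB1.continuousAt.tendsto.mono_left hle
    rcases lt_or_gt_of_ne hρ with hneg | hpos
    · have h1 : ∀ᶠ t in 𝓝[>] s, B1 t = -((t - s) ^ (-(α + m - n)) * A1 t) := by
        filter_upwards [h, hgt, hle hBeq, hle hAeq] with t h1 h2 h3 h4
        rw [h3, h4, smul_eq_mul, smul_eq_mul] at h1
        have h6 : (0:ℝ) < t - s := by linarith
        rw [neg_sub, show (n:ℝ) - (α + m) = -α + (-m + n) by ring, Real.rpow_add h6,
          Real.rpow_add h6, Real.rpow_neg h6.le, Real.rpow_neg h6.le, Real.rpow_natCast,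
          Real.rpow_natCast]
        have h7 := Real.rpow_pos_of_pos h6 α
        have h8 := pow_pos h6 m
        have h9 : (t - s) ^ n * A1 t = -((t - s) ^ α * ((t - s) ^ m * B1 t)) := by linarith
        field_simp
        linarith
      have h2 : Tendsto (fun t => -((t - s) ^ (-(α + m - n)) * A1 t)) (𝓝[>] s)
          (𝓝 (-(0 * A1 s))) := ((hcomp _ (by linarith)).mul hTA).neg
      have h3 := tendsto_nhds_unique (hTB.congr' h1) h2
      apply hB1s
      rw [h3]; ring
    · have h1 : ∀ᶠ t in 𝓝[>] s, A1 t = -((t - s) ^ ((α + m - n)) * B1 t) := by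
        filter_upwards [h, hgt, hle hBeq, hle hAeq] with t h1 h2 h3 h4
        rw [h3, h4, smul_eq_mul, smul_eq_mul] at h1
        have h6 : (0:ℝ) < t - s := by linarith
        rw [show α + m - (n:ℝ) = α + (m + -n) by ring, Real.rpow_add h6,
          Real.rpow_add h6, Real.rpow_neg h6.le, Real.rpow_natCast,
          Real.rpow_natCast]
        have h7 := Real.rpow_pos_of_pos h6 α
        have h8 := pow_pos h6 n
        have h9 : (t - s) ^ n * A1 t = -((t - s) ^ α * ((t - s) ^ m * B1 t)) := by linarith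
        field_simp
        linarith
      have h2 : Tendsto (fun t => -((t - s) ^ ((α + m - n)) * B1 t)) (𝓝[>] s)
          (𝓝 (-(0 * B1 s))) := ((hcomp _ (by linarith)).mul hTB).neg
      have h3 := tendsto_nhds_unique (hTA.congr' h1) h2
      apply hA1s
      rw [h3]; ring

theorem ov (α : ℝ) (hα : ∀ n : ℤ, α ≠ n) :
    ∀ (N : ℕ) (U : Finset ℝ), U.card = N → ∀ (c : Finset ℝ → ℝ),
    (∀ᶠ t in atTop, ∑ A ∈ U.powerset, c A * ∏ s ∈ A, (t - s) ^ α = 0) →
    ∀ A ∈ U.powerset, c A = 0 := by
  intro N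
  induction N with
  | zero =>
    intro U hU c h A hA
    rw [Finset.card_eq_zero] at hU
    subst hU
    simp only [Finset.powerset_empty, Finset.mem_singleton] at hA
    subst hA
    obtain ⟨t, ht⟩ := h.exists
    simpa using ht
  | succ N ih =>
    intro U hU c h
    have hne : U.Nonempty := by
      rw [← Finset.card_pos]; omega
    set s := U.max' hne with hs
    have hsU : s ∈ U := U.max'_mem hne
    set U' := U.erase s with hU'
    have hcard : U'.card = N := by
      rw [hU', Finset.card_erase_of_mem hsU]; omega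
    have hsU' : s ∉ U' := Finset.notMem_erase s U
    have hins : insert s U' = U := Finset.insert_erase hsU
    have hlt : ∀ s' ∈ U', s' < s := by
      intro s' hs'
      exact lt_of_le_of_ne (U.le_max' _ (Finset.mem_of_mem_erase hs')) (Finset.ne_of_mem_erase hs')
    -- splitting
    have hsplit : ∀ t : ℝ, ∑ A ∈ U.powerset, c A * ∏ s ∈ A, (t - s) ^ α =
        ∑ A ∈ U'.powerset, c A * ∏ s ∈ A, (t - s) ^ α +
        (t - s) ^ α * ∑ A ∈ U'.powerset, c (insert s A) * ∏ s ∈ A, (t - s) ^ α := by
      intro t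
      rw [← hins, Finset.sum_powerset_insert hsU', Finset.mul_sum]
      congr 1
      refine Finset.sum_congr rfl (fun A hA => ?_)
      have : s ∉ A := fun h => hsU' (Finset.mem_powerset.1 hA h)
      rw [Finset.prod_insert this]
      ring
    have hF : AnalyticOnNhd ℝ (fun t : ℝ => ∑ A ∈ U.powerset, c A * ∏ s ∈ A, (t - s) ^ α)
        (Set.Ioi s) := by
      intro t ht
      exact analyticAt_sum_prod α U c t (fun s' hs' => lt_of_le_of_lt (U.le_max' _ hs') ht)
    have hFzero : Set.EqOn (fun t : ℝ => ∑ A ∈ U.powerset, c A * ∏ s ∈ A, (t - s) ^ α) 0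
        (Set.Ioi s) := by
      obtain ⟨T, hT⟩ := h.exists_forall_of_atTop
      have hm : max T s + 1 ∈ Set.Ioi s := by
        have := le_max_right T s
        simp only [Set.mem_Ioi]; linarith
      refine hF.eqOn_zero_of_preconnected_of_eventuallyEq_zero isPreconnected_Ioi hm ?_
      have : ∀ᶠ x in 𝓝 (max T s + 1), T < x := lt_mem_nhds (by
        have := le_max_left T s
        linarith)
      filter_upwards [this] with x hx
      exact hT x hx.le
    have hB0 : ∀ᶠ t in 𝓝 s,
        ∑ A ∈ U'.powerset, c (insert s A) * ∏ s ∈ A, (t - s) ^ α = 0 := by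
      refine local_zero α hα s
        (fun t => ∑ A ∈ U'.powerset, c A * ∏ s ∈ A, (t - s) ^ α) _
        (analyticAt_sum_prod α U' c s hlt)
        (analyticAt_sum_prod α U' (fun A => c (insert s A)) s hlt) ?_
      have : ∀ᶠ t in 𝓝[>] s, t ∈ Set.Ioi s := eventually_mem_nhdsWithin
      filter_upwards [this] with t ht
      rw [← hsplit t]
      exact hFzero ht
    have hB : ∀ᶠ t in atTop,
        ∑ A ∈ U'.powerset, c (insert s A) * ∏ s ∈ A, (t - s) ^ α = 0 := by
      obtain ⟨y, hy1, hy2⟩ : ∃ y < s, ∀ s' ∈ U', s' < y := by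
        rcases U'.eq_empty_or_nonempty with h0 | h0
        · exact ⟨s - 1, by linarith, by simp [h0]⟩
        · have h1 := hlt _ (U'.max'_mem h0)
          obtain ⟨y, hy1, hy2⟩ := exists_between h1
          exact ⟨y, hy2, fun s' hs' => lt_of_le_of_lt (U'.le_max' _ hs') hy1⟩
      have hBan : AnalyticOnNhd ℝ
          (fun t : ℝ => ∑ A ∈ U'.powerset, c (insert s A) * ∏ s ∈ A, (t - s) ^ α)
          (Set.Ioi y) := by
        intro t ht
        exact analyticAt_sum_prod α U' (fun A => c (insert s A)) t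
          (fun s' hs' => lt_trans (hy2 s' hs') ht)
      have := hBan.eqOn_zero_of_preconnected_of_eventuallyEq_zero isPreconnected_Ioi
        (z₀ := s) hy1 hB0
      filter_upwards [eventually_gt_atTop y] with t ht
      exact this ht
    have hc1 := ih U' hcard (fun A => c (insert s A)) hB
    have hA : ∀ᶠ t in atTop, ∑ A ∈ U'.powerset, c A * ∏ s ∈ A, (t - s) ^ α = 0 := by
      filter_upwards [h, hB] with t h1 h2
      rw [hsplit t, h2, mul_zero, add_zero] at h1
      exact h1
    have hc2 := ih U' hcard c hA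
    intro A hA
    by_cases hsA : s ∈ A
    · have h1 := hc1 (A.erase s) (by
        rw [Finset.mem_powerset] at hA ⊢
        exact Finset.erase_subset_erase s hA)
      simpa [Finset.insert_erase hsA] using h1
    · apply hc2
      rw [Finset.mem_powerset] at hA ⊢
      exact Finset.subset_erase.2 ⟨hA, hsA⟩

end Pool.Agent.Work.MP_3a76b1_co
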