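import Pool.Agent.Work.MP_3a76b1_co.Expand
import Pool.Agent.Work.MP_3a76b1_co.OneVar

/-!
Nonvanishing of the rigidity determinant for non-integer exponents.
-/

namespace Pool.Agent.Work.MP_3a76b1_co

open Finset Filter Topology

lemma exists_linearIndependent_rat (J : Type*) [Fintype J] :
    ∃ A : J → ℝ, LinearIndependent ℚ A := by
  classical
  have h1 : ((Fintype.card J : ℕ) : Cardinal) ≤ Module.rank ℚ ℝ := by
    rw [Real.rank_rat_real]
    exact (Cardinal.natCast_lt_aleph0.le).trans Cardinal.aleph0_le_continuum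
  obtain ⟨s, hs1, hs2⟩ := (le_rank_iff_exists_linearIndependent).1 h1
  have hfin : Finite s := by
    rw [← Cardinal.lt_aleph0_iff_finite, hs1]
    exact Cardinal.natCast_lt_aleph0
  have : Fintype s := Fintype.ofFinite s
  have hcard : Fintype.card s = Fintype.card J := by
    rw [Cardinal.mk_fintype] at hs1
    exact_mod_cast hs1
  let e : J ≃ s := (Fintype.equivOfCardEq hcard).symm
  refine ⟨fun j => (e j : ℝ), ?_⟩
  exact LinearIndependent.comp hs2 e e.injective

section Roots

variable {V : Type*} [Fintype V] [DecidableEq V] {r : V} {d : ℕ}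

/-- the root of the k-th coordinate difference along the line. -/
noncomputable def root (A : V × Fin d → ℝ) (b : V → ℕ) (h t : V) (k : Fin d) : ℝ :=
  -(A (h, k) - A (t, k)) / ((b h : ℝ) - b t)

lemma root_inj (A : V × Fin d → ℝ) (hA : LinearIndependent ℚ A) (b : V → ℕ)
    (hb : Function.Injective b) {h t h' t' : V} {k k' : Fin d} (hne : h ≠ t) (hne' : h' ≠ t')
    (heq : root A b h t k = root A b h' t' k') :
    k = k' ∧ (h = h' ∨ h = t') ∧ (t = h' ∨ t = t') := by
  classical
  have hβ : ((b h : ℝ) - b t) ≠ 0 := by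
    intro h0
    apply hne
    apply hb
    have : (b h : ℝ) = b t := by linarith
    exact_mod_cast this
  have hβ' : ((b h' : ℝ) - b t') ≠ 0 := by
    intro h0
    apply hne'
    apply hb
    have : (b h' : ℝ) = b t' := by linarith
    exact_mod_cast this
  have hβ'q : ((b h' : ℚ) - b t') ≠ 0 := by exact_mod_cast hβ'
  rw [root, root, div_eq_div_iff hβ hβ'] at heq
  rw [Fintype.linearIndependent_iff] at hA
  let g : V × Fin d → ℚ := fun j =>
    ((b h' : ℚ) - b t') * ((if j = (h, k) then 1 else 0) - (if j = (t, k) then 1 else 0)) -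
    ((b h : ℚ) - b t) * ((if j = (h', k') then 1 else 0) - (if j = (t', k') then 1 else 0))
  have hg : ∑ j, g j • A j = 0 := by
    have h1 : ∀ j : V × Fin d, g j • A j = ((b h' : ℝ) - b t') *
        ((if j = (h, k) then A j else 0) - (if j = (t, k) then A j else 0)) -
      ((b h : ℝ) - b t) * ((if j = (h', k') then A j else 0) -
          (if j = (t', k') then A j else 0)) := by
      intro j
      simp only [g, Rat.smul_def]
      split_ifs <;> push_cast <;> ring
    simp_rw [h1]
    rw [Finset.sum_sub_distrib, ← Finset.mul_sum, ← Finset.mul_sum, Finset.sum_sub_distrib,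
      Finset.sum_sub_distrib]
    simp only [Finset.sum_ite_eq', Finset.mem_univ, if_true]
    linarith
  have h1 := hA g hg (h, k)
  have h2 := hA g hg (t, k)
  have hn1 : (h, k) ≠ (t, k) := by simp [hne]
  have hn2 : (t, k) ≠ (h, k) := by simp [hne.symm]
  simp only [g, hn1, hn2, if_true, if_false, sub_zero, zero_sub, mul_one] at h1 h2
  by_cases c1 : (h, k) = (h', k')
  · rw [Prod.mk.injEq] at c1
    by_cases c2 : (t, k) = (t', k')
    · rw [Prod.mk.injEq] at c2
      exact ⟨c1.2, Or.inl c1.1, Or.inr c2.1⟩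
    · by_cases c3 : (t, k) = (h', k')
      · rw [Prod.mk.injEq] at c3
        exact ⟨c1.2, Or.inl c1.1, Or.inl c3.1⟩
      · exfalso
        rw [if_neg c2, if_neg c3] at h2
        apply hβ'q
        linarith
  · by_cases c4 : (h, k) = (t', k')
    · rw [Prod.mk.injEq] at c4
      by_cases c2 : (t, k) = (t', k')
      · rw [Prod.mk.injEq] at c2
        exact ⟨c4.2, Or.inr c4.1, Or.inr c2.1⟩
      · by_cases c3 : (t, k) = (h', k')
        · rw [Prod.mk.injEq] at c3
          exact ⟨c4.2, Or.inr c4.1, Or.inl c3.1⟩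
        · exfalso
          rw [if_neg c2, if_neg c3] at h2
          apply hβ'q
          linarith
    · exfalso
      rw [if_neg c1, if_neg c4] at h1
      apply hβ'q
      linarith

theorem exists_det_ne_zero (α : ℝ) (hα : ∀ n : ℤ, α ≠ n) (hd tl : Wd r d → V)
    (hne : ∀ i, hd i ≠ tl i) (hinj : Function.Injective (fun i => s(hd i, tl i)))
    (hsp : Sparse hd tl d) :
    ∃ x : V → Fin d → ℝ, (∀ i, ∀ k, x (hd i) k ≠ x (tl i) k) ∧
      (Mat hd tl (fun i k => |x (hd i) k - x (tl i) k| ^ (α - 1) *
        (x (hd i) k - x (tl i) k))).det ≠ 0 := by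
  classical
  obtain ⟨κ0, hκ0⟩ := nw hd tl d hsp
  have hc0 := coef_ne_zero hd tl κ0 hκ0
  obtain ⟨A, hA⟩ := exists_linearIndependent_rat (V × Fin d)
  let b : V → ℕ := fun v => (Fintype.equivFin V v : ℕ)
  have hb : Function.Injective b := by
    intro u v huv
    exact (Fintype.equivFin V).injective (Fin.val_injective huv)
  let ρ : Wd r d → Fin d → ℝ := fun i k => root A b (hd i) (tl i) k
  have hρ : ∀ i k i' k', ρ i k = ρ i' k' → i = i' ∧ k = k' := by
    intro i k i' k' heq
    obtain ⟨h1, h2, h3⟩ := root_inj A hA b hb (hne i) (hne i') heq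
    refine ⟨hinj ?_, h1⟩
    simp only [Sym2.eq_iff]
    have hi := hne i
    rcases h2 with h2 | h2 <;> rcases h3 with h3 | h3
    · exact absurd (h2.trans h3.symm) hi
    · exact Or.inl ⟨h2, h3⟩
    · exact Or.inr ⟨h2, h3⟩
    · exact absurd (h2.trans h3.symm) hi
  let β : Wd r d → ℝ := fun i => (b (hd i) : ℝ) - b (tl i)
  have hβ : ∀ i, β i ≠ 0 := by
    intro i h0
    apply hne i
    apply hb
    have : (b (hd i) : ℝ) = b (tl i) := by
      have : (b (hd i) : ℝ) - b (tl i) = 0 := h0
      linarith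
    exact_mod_cast this
  let x : ℝ → V → Fin d → ℝ := fun t v k => A (v, k) + t * b v
  have hx : ∀ t i k, x t (hd i) k - x t (tl i) k = β i * (t - ρ i k) := by
    intro t i k
    simp only [x, β, ρ, root]
    have := hβ i
    simp only [β] at this
    field_simp
    ring
  let U : Finset ℝ := univ.image (fun p : Wd r d × Fin d => ρ p.1 p.2)
  let S : (Wd r d → Fin d) → Finset ℝ := fun κ => univ.image (fun i => ρ i (κ i))
  have hSU : ∀ κ, S κ ∈ U.powerset := by
    intro κ
    rw [Finset.mem_powerset]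
    intro y hy
    simp only [S, Finset.mem_image, Finset.mem_univ, true_and] at hy
    obtain ⟨i, rfl⟩ := hy
    simp only [U, Finset.mem_image, Finset.mem_univ, true_and]
    exact ⟨(i, κ i), rfl⟩
  have hSinj : Function.Injective S := by
    intro κ κ' h
    ext i : 1
    have : ρ i (κ i) ∈ S κ' := by
      rw [← h]
      simp only [S, Finset.mem_image, Finset.mem_univ, true_and]
      exact ⟨i, rfl⟩
    simp only [S, Finset.mem_image, Finset.mem_univ, true_and] at this
    obtain ⟨i', hi'⟩ := this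
    obtain ⟨h1, h2⟩ := hρ _ _ _ _ hi'
    rw [← h2, h1]
  have hprod : ∀ (κ) (f : ℝ → ℝ), ∏ s ∈ S κ, f s = ∏ i, f (ρ i (κ i)) := by
    intro κ f
    simp only [S]
    rw [Finset.prod_image]
    intro i _ i' _ h
    exact (hρ _ _ _ _ h).1
  let c : Finset ℝ → ℝ := fun T => ∑ κ ∈ univ.filter (fun κ => S κ = T), coef hd tl κ
  have hc : c (S κ0) = coef hd tl κ0 := by
    simp only [c]
    rw [Finset.sum_eq_single κ0]
    · intro κ hκ hne
      simp only [Finset.mem_filter, Finset.mem_univ, true_and] at hκ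
      exact absurd (hSinj hκ) hne
    · intro h
      exact absurd (by simp) h
  have hnot : ¬ ∀ᶠ t in atTop, ∑ T ∈ U.powerset, c T * ∏ s ∈ T, (t - s) ^ α = 0 := by
    intro h
    have := ov α hα U.card U rfl c h (S κ0) (hSU κ0)
    rw [hc] at this
    exact hc0 this
  have hbig : ∀ᶠ t : ℝ in atTop, ∀ s ∈ U, s < t := by
    rw [Filter.eventually_all_finset]
    intro s _
    exact eventually_gt_atTop s
  have hfreq : ∃ᶠ t : ℝ in atTop, ¬ (∑ T ∈ U.powerset, c T * ∏ s ∈ T, (t - s) ^ α = 0) :=
    Filter.not_eventually.1 hnot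
  obtain ⟨t, ht1, ht2⟩ := (hfreq.and_eventually hbig).exists
  have hgt : ∀ i k, 0 < t - ρ i k := by
    intro i k
    have := ht2 (ρ i k) (by
      simp only [U, Finset.mem_image, Finset.mem_univ, true_and]
      exact ⟨(i, k), rfl⟩)
    linarith
  refine ⟨x t, ?_, ?_⟩
  · intro i k h0
    have h1 := hx t i k
    rw [h0, sub_self] at h1
    rcases mul_eq_zero.1 h1.symm with h2 | h2
    · exact hβ i h2
    · exact (hgt i k).ne' h2
  · have hφ : ∀ i k, |x t (hd i) k - x t (tl i) k| ^ (α - 1) *
        (x t (hd i) k - x t (tl i) k) = (|β i| ^ (α - 1) * β i) * (t - ρ i k) ^ α := by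
      intro i k
      rw [hx, abs_mul, Real.mul_rpow (abs_nonneg _) (abs_nonneg _), abs_of_pos (hgt i k)]
      have : (t - ρ i k) ^ α = (t - ρ i k) ^ (α - 1) * (t - ρ i k) := by
        have h1 := Real.rpow_add (hgt i k) (α - 1) 1
        rw [Real.rpow_one] at h1
        rw [← h1]
        congr 1
        ring
      rw [this]
      ring
    simp_rw [hφ]
    rw [det_expand]
    have h1 : ∀ κ : Wd r d → Fin d,
        (∏ i, (|β i| ^ (α - 1) * β i) * (t - ρ i (κ i)) ^ α) * coef hd tl κ =
        (∏ i, (|β i| ^ (α - 1) * β i)) * (coef hd tl κ * ∏ s ∈ S κ, (t - s) ^ α) := by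
      intro κ
      rw [Finset.prod_mul_distrib, hprod κ (fun s => (t - s) ^ α)]
      ring
    simp_rw [h1]
    rw [← Finset.mul_sum]
    apply mul_ne_zero
    · rw [Finset.prod_ne_zero_iff]
      intro i _
      exact mul_ne_zero (Real.rpow_pos_of_pos (abs_pos.2 (hβ i)) _).ne' (hβ i)
    · intro h0
      apply ht1
      rw [← h0, ← Finset.sum_fiberwise_of_maps_to (s := univ) (t := U.powerset) (g := S)
        (fun κ _ => hSU κ)]
      refine Finset.sum_congr rfl (fun T _ => ?_)
      simp only [c]
      rw [Finset.sum_mul]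
      refine Finset.sum_congr rfl (fun κ hκ => ?_)
      simp only [Finset.mem_filter, Finset.mem_univ, true_and] at hκ
      rw [hκ]

end Roots

end Pool.Agent.Work.MP_3a76b1_co
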